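import Pool.Agent.H620.Pre.Tail

/-! Sets which are invariant up to finitely many exceptions: a dichotomy. -/

set_option autoImplicit false

namespace Pool.Agent.H620.Pre

open Finset Filter Topology
open Pool.Agent.H499R2.ND (Dn cnt Phi Td cnt_le cnt_eq cnt_mono Inv dens_side HD_ncard)
open Pool.Agent.H620.Inf2 (Sg Fam Large influence_fam)
open Pool.Agent.H620.Thr (T_sd dn_le)

namespace Tail

theorem side_T {s x : ℤ} (hs : s = 1 ∨ s = -1) (hx : 0 < s * x) : 0 < s * Td 1 x := by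
  unfold Td
  rcases hs with rfl | rfl <;> split_ifs <;> omega

theorem side_iter {s x : ℤ} (hs : s = 1 ∨ s = -1) (hx : 0 < s * x) (k : ℕ) : 0 < s * (Td 1)^[k] x := by
  induction k with
  | zero => exact hx
  | succ k ih => rw [Function.iterate_succ_apply']; exact side_T hs ih

/-- the last term outside of a set -/
theorem Hit.last {A : Set ℤ} {x y : ℤ} (hx : x ∉ A) (hy : y ∈ A) (h : Hit x y) :
    ∃ z, Hit x z ∧ z ∉ A ∧ Td 1 z ∈ A := by
  classical
  obtain ⟨k, rfl⟩ := h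
  have hex : ∃ k, (Td 1)^[k] x ∈ A := ⟨k, hy⟩
  have h1 := Nat.find_spec hex
  have h2 := fun m hm => Nat.find_min hex (m := m) hm
  obtain ⟨m, hm⟩ : ∃ m, Nat.find hex = m + 1 := Nat.exists_eq_succ_of_ne_zero (by
    intro h0
    rw [h0] at h1
    exact hx h1)
  refine ⟨(Td 1)^[m] x, ⟨m, rfl⟩, h2 m (by omega), ?_⟩
  rw [hm, Function.iterate_succ_apply'] at h1
  exact h1

theorem two_T (e : ℤ) : e.natAbs ≤ 2 * (Td 1 e).natAbs := by
  unfold Td
  split_ifs <;> omega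

/-- a bound for the cycles with a small element -/
theorem cycle_bound (X₀ : ℕ) : ∃ X₁ : ℕ, X₀ ≤ X₁ ∧ ∀ y : ℤ, y.natAbs ≤ X₀ → (∃ p, 1 ≤ p ∧ (Td 1)^[p] y = y) →
    ∀ k : ℕ, ((Td 1)^[k] y).natAbs ≤ X₁ := by
  classical
  let M : ℤ → ℕ := fun y => if h : ∃ p, 1 ≤ p ∧ (Td 1)^[p] y = y then ∑ i ∈ range h.choose, ((Td 1)^[i] y).natAbs else 0
  refine ⟨X₀ + ∑ y ∈ Icc (-(X₀ : ℤ)) X₀, M y, by omega, fun y hy hp k => ?_⟩
  have h1 : M y ≤ ∑ y ∈ Icc (-(X₀ : ℤ)) X₀, M y :=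
    single_le_sum (f := M) (fun _ _ => Nat.zero_le _) (mem_Icc.2 ⟨by omega, by omega⟩)
  have h2 : M y = ∑ i ∈ range hp.choose, ((Td 1)^[i] y).natAbs := dif_pos hp
  obtain ⟨h3, h4⟩ := hp.choose_spec
  have h5 : (Td 1)^[k] y = (Td 1)^[k % hp.choose] y :=
    (Function.IsPeriodicPt.iterate_mod_apply (f := Td 1) (n := hp.choose) (x := y) h4 k).symm
  have h6 : ((Td 1)^[k % hp.choose] y).natAbs ≤ ∑ i ∈ range hp.choose, ((Td 1)^[i] y).natAbs :=
    single_le_sum (f := fun i => ((Td 1)^[i] y).natAbs) (fun _ _ => Nat.zero_le _)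
      (mem_range.2 (Nat.mod_lt _ (by omega)))
  rw [h5]
  omega

section
variable {s : ℤ} {σ : ℤ → Prop} {X₀ : ℕ}

theorem run (hs : s = 1 ∨ s = -1) (hinv : ∀ x : ℤ, 0 < s * x → X₀ < x.natAbs → (σ x ↔ σ (Td 1 x))) {x : ℤ}
    (hx : 0 < s * x) (k : ℕ) (h : ∀ i < k, X₀ < ((Td 1)^[i] x).natAbs) : σ x ↔ σ ((Td 1)^[k] x) := by
  induction k with
  | zero => rfl
  | succ k ih =>
    rw [ih fun i hi => h i (by omega), Function.iterate_succ_apply']
    exact hinv _ (side_iter hs hx k) (h k (by omega))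

/-- **The membership is determined by the tail and by the small terms.** -/
theorem agree (hs : s = 1 ∨ s = -1) (hinv : ∀ x : ℤ, 0 < s * x → X₀ < x.natAbs → (σ x ↔ σ (Td 1 x))) {X₁ : ℕ}
    (h01 : X₀ ≤ X₁) (hc : ∀ y : ℤ, y.natAbs ≤ X₀ → (∃ p, 1 ≤ p ∧ (Td 1)^[p] y = y) →
      ∀ k : ℕ, ((Td 1)^[k] y).natAbs ≤ X₁) {x x' : ℤ} (hx : 0 < s * x) (hx' : 0 < s * x') (hX : 2 * X₁ < x.natAbs)
    (hm : Mg x x') (hA : ∀ a : ℤ, a.natAbs ≤ 2 * X₁ → (Hit x a ↔ Hit x' a)) : σ x ↔ σ x' := by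
  classical
  by_cases h0 : ∃ k : ℕ, ((Td 1)^[k] x).natAbs ≤ X₀
  · have h0' : ∃ k : ℕ, ((Td 1)^[k] x').natAbs ≤ X₀ := by
      obtain ⟨k, hk⟩ := h0
      obtain ⟨k', hk'⟩ := (hA _ (by omega)).1 ⟨k, rfl⟩
      exact ⟨k', by rw [hk']; exact hk⟩
    have hk := Nat.find_spec h0
    have hmin : ∀ i < Nat.find h0, X₀ < ((Td 1)^[i] x).natAbs := fun i hi => not_le.1 (Nat.find_min h0 hi)
    have hk' := Nat.find_spec h0'
    have hmin' : ∀ i < Nat.find h0', X₀ < ((Td 1)^[i] x').natAbs := fun i hi => not_le.1 (Nat.find_min h0' hi)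
    generalize Nat.find h0 = k at hk hmin
    generalize Nat.find h0' = k' at hk' hmin'
    rw [run hs hinv hx k hmin, run hs hinv hx' k' hmin']
    obtain ⟨y, hy⟩ : ∃ y, (Td 1)^[k] x = y := ⟨_, rfl⟩
    obtain ⟨y', hy'⟩ : ∃ y', (Td 1)^[k'] x' = y' := ⟨_, rfl⟩
    rw [hy] at hk ⊢
    rw [hy'] at hk' ⊢
    suffices y = y' by rw [this]
    by_contra hne
    -- `y` and `y'` are terms of each other
    have g1 : Hit y y' := by
      obtain ⟨m, hm1⟩ := (hA y' (by omega)).2 ⟨k', hy'⟩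
      have hmk : k ≤ m := by
        by_contra hcon
        have := hmin m (by omega)
        rw [hm1] at this
        omega
      obtain ⟨r, rfl⟩ := Nat.exists_eq_add_of_le hmk
      rw [add_comm, Function.iterate_add_apply, hy] at hm1
      exact ⟨r, hm1⟩
    have g2 : Hit y' y := by
      obtain ⟨m, hm1⟩ := (hA y (by omega)).1 ⟨k, hy⟩
      have hmk : k' ≤ m := by
        by_contra hcon
        have := hmin' m (by omega)
        rw [hm1] at this
        omega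
      obtain ⟨r, rfl⟩ := Nat.exists_eq_add_of_le hmk
      rw [add_comm, Function.iterate_add_apply, hy'] at hm1
      exact ⟨r, hm1⟩
    have hper : ∃ p, 1 ≤ p ∧ (Td 1)^[p] y = y := by
      obtain ⟨a, ha⟩ := g1
      obtain ⟨b, hb⟩ := g2
      refine ⟨b + a, ?_, by rw [Function.iterate_add_apply, ha, hb]⟩
      rcases a with _ | a
      · exact absurd ha hne
      · omega
    have hbd := hc y hk hper
    -- the last term outside of the cycle
    obtain ⟨e, he1, he2, he3⟩ := Hit.last (A := {z | Hit y z}) (x := x) (y := y) (by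
      rintro ⟨j, hj⟩
      have := hbd j
      rw [hj] at this
      omega) (Hit.refl y) ⟨k, hy⟩
    have he4 : e.natAbs ≤ 2 * X₁ := by
      obtain ⟨j, hj⟩ := he3
      have h1 := hbd j
      rw [hj] at h1
      have h2 := two_T e
      omega
    obtain ⟨m', hm'⟩ := (hA e he4).1 he1
    obtain ⟨m, hm1⟩ := he1
    have hmk : m ≤ k := by
      by_contra hcon
      obtain ⟨r, rfl⟩ := Nat.exists_eq_add_of_le (show k ≤ m by omega)
      rw [add_comm, Function.iterate_add_apply, hy] at hm1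
      exact he2 ⟨r, hm1⟩
    have hmk' : m' ≤ k' := by
      by_contra hcon
      obtain ⟨r, rfl⟩ := Nat.exists_eq_add_of_le (show k' ≤ m' by omega)
      rw [add_comm, Function.iterate_add_apply, hy'] at hm'
      exact he2 (g1.trans ⟨r, hm'⟩)
    obtain ⟨u, rfl⟩ := Nat.exists_eq_add_of_le hmk
    obtain ⟨v, rfl⟩ := Nat.exists_eq_add_of_le hmk'
    rw [add_comm, Function.iterate_add_apply, hm1] at hy
    rw [add_comm, Function.iterate_add_apply, hm'] at hy'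
    rcases lt_trichotomy u v with h | h | h
    · have h1 := hmin' (u + m') (by omega)
      rw [Function.iterate_add_apply, hm', hy] at h1
      omega
    · subst h
      exact hne (hy.symm.trans hy')
    · have h1 := hmin (v + m) (by omega)
      rw [Function.iterate_add_apply, hm1, hy'] at h1
      omega
  · push Not at h0
    have h0' : ∀ k : ℕ, X₀ < ((Td 1)^[k] x').natAbs := by
      intro k
      by_contra hcon
      obtain ⟨k', hk'⟩ := (hA ((Td 1)^[k] x') (by omega)).2 ⟨k, rfl⟩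
      have := h0 k'
      rw [hk'] at this
      omega
    obtain ⟨i, j, hij⟩ := hm
    rw [run hs hinv hx i fun _ _ => h0 _, run hs hinv hx' j fun _ _ => h0' _, hij]

end

/-- finitely many changes -/
theorem dn_change {P Q : ℕ → Prop} {p : ℝ} (hP : Dn P p) {X : ℕ} (h : ∀ n, X < n → (P n ↔ Q n)) : Dn Q p := by
  classical
  have h0 : Tendsto (fun N : ℕ => (cnt Q N - cnt P N) / N) atTop (𝓝 0) := by
    rw [tendsto_zero_iff_abs_tendsto_zero]
    have h1 : Tendsto (fun N : ℕ => (X : ℝ) / N) atTop (𝓝 0) := tendsto_const_div_atTop_nhds_zero_nat _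
    refine squeeze_zero (fun _ => abs_nonneg _) (fun N => ?_) h1
    show |(cnt Q N - cnt P N) / N| ≤ X / N
    rw [abs_div, Nat.abs_cast]
    refine div_le_div_of_nonneg_right ?_ (Nat.cast_nonneg N)
    have key : ∀ P Q : ℕ → Prop, (∀ n, X < n → (P n ↔ Q n)) → cnt P N ≤ cnt Q N + X := by
      intro P Q h
      rw [cnt_eq, cnt_eq]
      have h2 : (Icc 1 N).filter P ⊆ (Icc 1 N).filter Q ∪ Icc 1 X := by
        intro n hn
        rw [mem_filter, mem_Icc] at hn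
        rw [mem_union, mem_filter, mem_Icc, mem_Icc]
        by_cases hX : n ≤ X
        · exact Or.inr ⟨hn.1.1, hX⟩
        · exact Or.inl ⟨hn.1, (h n (by omega)).1 hn.2⟩
      have h3 := (card_le_card h2).trans (card_union_le _ _)
      rw [Nat.card_Icc, Nat.add_sub_cancel] at h3
      exact_mod_cast h3
    have h2 := key P Q h
    have h3 := key Q P fun n hn => (h n hn).symm
    rw [abs_le]
    constructor <;> linarith
  have h1 := hP.add h0
  rw [add_zero] at h1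
  refine h1.congr fun N => ?_
  rw [← add_div]
  congr 1
  ring

section
variable {s : ℤ} {S : Set ℕ} {X₀ : ℕ}

/-- the map on the positive integers -/
def Ts (s : ℤ) (n : ℕ) : ℕ := if n % 2 = 0 then n / 2 else ((3 * (n : ℤ) + s) / 2).toNat

theorem Ts_eq (hs : s = 1 ∨ s = -1) {n : ℕ} (hn : 1 ≤ n) : Td 1 (s * n) = s * (Ts s n : ℕ) := by
  unfold Td Ts
  rcases hs with rfl | rfl <;> split_ifs <;> omega

theorem sigma_inv (hs : s = 1 ∨ s = -1) (h : ∀ n : ℕ, X₀ < n → (n ∈ S ↔ Ts s n ∈ S)) (x : ℤ) (hx : 0 < s * x)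
    (hX : X₀ < x.natAbs) : x.natAbs ∈ S ↔ (Td 1 x).natAbs ∈ S := by
  have e : x = s * (x.natAbs : ℤ) := by rcases hs with rfl | rfl <;> omega
  have h1 := Ts_eq hs (n := x.natAbs) (by omega)
  rw [← e] at h1
  rw [h1, natAbs_side hs]
  exact h _ hX

theorem al_dn (hs : s = 1 ∨ s = -1) (h : ∀ n : ℕ, X₀ < n → (n ∈ S ↔ Ts s n ∈ S)) :
    ∃ l, Dn (fun n => n ∈ S) l ∧ ((∀ X : ℕ, ∃ n ∈ S, ¬ 3 ∣ n ∧ X < n) → 0 < l) := by
  classical
  have hss : s * s = 1 := by rcases hs with rfl | rfl <;> norm_num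
  obtain ⟨X₁, h01, hc⟩ := cycle_bound X₀
  set A : Finset ℤ := Icc (-((2 * X₁ : ℕ) : ℤ)) ((2 * X₁ : ℕ) : ℤ) with hA
  set B : Set ℕ := {n | ∃ n' : ℕ, 2 * X₁ < n' ∧ n' ∈ S ∧ Mg (s * n) (s * n') ∧
    ∀ a ∈ A, Hit (s * n) a ↔ Hit (s * n') a} with hB
  have hdet : Det s A B := by
    intro n n' _ _ hm hh
    constructor
    · rintro ⟨m, h1, h2, h3, h4⟩
      exact ⟨m, h1, h2, hm.symm.trans h3, fun a ha => (hh a ha).symm.trans (h4 a ha)⟩
    · rintro ⟨m, h1, h2, h3, h4⟩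
      exact ⟨m, h1, h2, hm.trans h3, fun a ha => (hh a ha).trans (h4 a ha)⟩
  have hBS : ∀ n : ℕ, 2 * X₁ < n → (n ∈ B ↔ n ∈ S) := by
    intro n hn
    constructor
    · rintro ⟨m, h1, h2, h3, h4⟩
      have h5 := agree (s := s) (σ := fun x => x.natAbs ∈ S) (X₀ := X₀) hs (sigma_inv hs h) h01 hc
        (x := s * n) (x' := s * m) (by rw [← mul_assoc, hss, one_mul]; omega)
        (by rw [← mul_assoc, hss, one_mul]; omega) (by rw [natAbs_side hs]; exact hn) h3 (fun a ha => h4 a (by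
          rw [hA, mem_Icc]; omega))
      simp only [natAbs_side hs] at h5
      exact h5.2 h2
    · intro h1
      exact ⟨n, hn, h1, (Hit.refl _).mg, fun _ _ => Iff.rfl⟩
  obtain ⟨l, hl⟩ := det_dn hs hdet
  refine ⟨l, dn_change hl hBS, fun hX => ?_⟩
  obtain ⟨b, hb, hb3, hbX⟩ := hX (2 * X₁ + ∑ a ∈ A, a.natAbs)
  exact pos_of hs hdet ((hBS b (by omega)).2 hb) hb3 (by omega) hl

theorem al_fam (hs : s = 1 ∨ s = -1) (h : ∀ n : ℕ, X₀ < n → (n ∈ S ↔ Ts s n ∈ S)) :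
    Fam s (() : Unit) () (X₀ + 1) (fun _ x => x.toNat ∈ S) := by
  intro t x hx
  have hss : s * s = 1 := by rcases hs with rfl | rfl <;> norm_num
  obtain ⟨n, rfl⟩ : ∃ n : ℕ, x = n := ⟨x.toNat, by omega⟩
  have h1 := T_sd hs (n : ℤ)
  rw [Ts_eq hs (by omega)] at h1
  have h2 : Pool.Agent.TH930.EBQ.T s (n : ℤ) = (Ts s n : ℕ) := by
    have : s * (s * Pool.Agent.TH930.EBQ.T s (n : ℤ)) = s * (s * ((Ts s n : ℕ) : ℤ)) := by rw [h1]
    rwa [← mul_assoc, hss, one_mul, ← mul_assoc, hss, one_mul] at this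
  show ((n : ℤ)).toNat ∈ S ↔ (Pool.Agent.TH930.EBQ.T s (n : ℤ)).toNat ∈ S
  rw [h2, Int.toNat_natCast, Int.toNat_natCast]
  exact h n (by omega)

/-- **Almost invariant sets: a dichotomy.** -/
theorem al_dichotomy (hs : s = 1 ∨ s = -1) (h : ∀ n : ℕ, X₀ < n → (n ∈ S ↔ Ts s n ∈ S)) :
    (∃ X : ℕ, ∀ n ∈ S, ¬ 3 ∣ n → n ≤ X) ∨ (∃ X : ℕ, ∀ n ∉ S, ¬ 3 ∣ n → n ≤ X) ∨ Large (fun n => n ∈ S) := by
  obtain ⟨l, hl, hpos⟩ := al_dn hs h
  obtain ⟨l', hl', hpos'⟩ := al_dn (S := Sᶜ) (X₀ := X₀) hs fun n hn => not_congr (h n hn)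
  by_cases h1 : ∃ X : ℕ, ∀ n ∈ S, ¬ 3 ∣ n → n ≤ X
  · exact Or.inl h1
  by_cases h2 : ∃ X : ℕ, ∀ n ∉ S, ¬ 3 ∣ n → n ≤ X
  · exact Or.inr (Or.inl h2)
  push Not at h1 h2
  have hl0 := hpos h1
  have hl1 := hpos' h2
  have hsum := dn_add hl hl' (fun n _ g1 g2 => g2 g1)
  right; right
  have hl2 : Dn (fun n => ((n : ℤ)).toNat ∈ S) l := dn_congr hl fun n _ => by rw [Int.toNat_natCast]
  have h4 : Large (fun n : ℕ => ((n : ℤ)).toNat ∈ S) := fun η hη =>
    influence_fam (A := Unit) hs (al_fam hs h) () (Q := 1) _root_.one_pos (fun _ _ _ => Iff.rfl) hl0 (by linarith) hl2 hη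
  exact Inf2.Large.congr (fun n _ => by rw [Int.toNat_natCast]) h4

/-- sparse sets -/
theorem al_sparse (hs : s = 1 ∨ s = -1) (h : ∀ n : ℕ, X₀ < n → (n ∈ S ↔ Ts s n ∈ S)) {X : ℕ} (hX : X₀ ≤ X)
    (h1 : ∀ n ∈ S, ¬ 3 ∣ n → n ≤ X) {n : ℕ} (hn : 1 ≤ n) (hS : n ∈ S) : ∃ j m : ℕ, m ≤ X ∧ n = 2 ^ j * m := by
  obtain ⟨j, m, h2, rfl⟩ := Nat.exists_eq_two_pow_mul_odd (n := n) (by omega)
  have h2' := Nat.odd_iff.1 h2
  refine ⟨j, m, ?_, rfl⟩
  by_contra hcon
  have hm : ∀ i : ℕ, 2 ^ i * m ∈ S → m ∈ S := by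
    intro i
    induction i with
    | zero => intro g; simpa using g
    | succ i ih =>
      intro g
      apply ih
      have h3 : 1 * m ≤ 2 ^ (i + 1) * m := Nat.mul_le_mul_right _ (Nat.one_le_two_pow)
      have h4 := (h (2 ^ (i + 1) * m) (by omega)).1 g
      have e : Ts s (2 ^ (i + 1) * m) = 2 ^ i * m := by
        unfold Ts
        have : 2 ^ (i + 1) * m = 2 * (2 ^ i * m) := by ring
        rw [this, if_pos (by omega)]
        omega
      rwa [e] at h4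
  have hmS := hm j hS
  by_cases h3 : 3 ∣ m
  · have h4 := (h m (by omega)).1 hmS
    have e : 2 * ((Ts s m : ℕ) : ℤ) = 3 * m + s := by
      unfold Ts
      rw [if_neg (by omega)]
      rcases hs with rfl | rfl <;> omega
    have h5 := h1 _ h4 (by rcases hs with rfl | rfl <;> omega)
    rcases hs with rfl | rfl <;> omega
  · have := h1 m hmS h3
    omega

theorem al_ac0 (hs : s = 1 ∨ s = -1) (h : ∀ n : ℕ, X₀ < n → (n ∈ S ↔ Ts s n ∈ S))
    (h1 : (∃ X : ℕ, ∀ n ∈ S, ¬ 3 ∣ n → n ≤ X) ∨ (∃ X : ℕ, ∀ n ∉ S, ¬ 3 ∣ n → n ≤ X)) : Inf2.AC0 S := by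
  rcases h1 with ⟨X, hX⟩ | ⟨X, hX⟩
  · refine ac0_sparse (X := X₀ + X) false fun n hn hS => ?_
    exact al_sparse hs h (X := X₀ + X) (by omega) (fun n h2 h3 => (hX n h2 h3).trans (by omega)) hn hS
  · refine ac0_sparse (X := X₀ + X) true fun n hn hS => ?_
    exact al_sparse (S := Sᶜ) hs (fun n hn => not_congr (h n hn)) (X := X₀ + X) (by omega)
      (fun n h2 h3 => (hX n h2 h3).trans (by omega)) hn hS

end

end Tail

end Pool.Agent.H620.Pre
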