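import Pool.Agent.H620.Thr.Side
import Pool.Agent.H620.Inf2.Final
import Pool.Agent.H620.Inf2.Tools

/-! The sets of the integers whose trajectory meets a finite set: large total influence. -/

set_option autoImplicit false

namespace Pool.Agent.H620.Pre

open Finset Filter Topology
open Pool.Agent.H499R2.ND (Dn cnt Phi Td cnt_le)
open Pool.Agent.H499R2.LT (laws_side Dn_iff)
open Pool.Agent.H620.Inf2 (Sg Fam Large influence_fam)
open Pool.Agent.H620.Thr (T_sd dn_le)

/-- the trajectory of `s x` meets `F` -/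
def RF (s : ℤ) (F : Finset ℤ) (_ : Unit) (x : ℤ) : Prop := ∃ j : ℕ, (Td 1)^[j] (s * x) ∈ F

theorem RF_fam {s : ℤ} (hs : s = 1 ∨ s = -1) (F : Finset ℤ) :
    Fam s (() : Unit) () ((∑ f ∈ F, f.natAbs) + 1) (RF s F) := by
  intro t x hx
  unfold RF
  rw [T_sd hs]
  have hnot : s * x ∉ F := by
    intro h
    have h1 : (s * x).natAbs ≤ ∑ f ∈ F, f.natAbs :=
      single_le_sum (f := fun f : ℤ => f.natAbs) (fun f _ => Nat.zero_le _) h
    have h2 : (s * x).natAbs = x.natAbs := by rcases hs with rfl | rfl <;> simp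
    rw [h2] at h1
    have h3 : (((∑ f ∈ F, f.natAbs) + 1 : ℕ) : ℤ) ≤ x := hx
    generalize (∑ f ∈ F, f.natAbs) = A at h1 h3
    omega
  constructor
  · rintro ⟨j, h2⟩
    rcases j with _ | j
    · exact absurd h2 hnot
    · exact ⟨j, by rwa [Function.iterate_succ_apply] at h2⟩
  · rintro ⟨j, h2⟩
    exact ⟨j + 1, by rwa [Function.iterate_succ_apply]⟩

theorem dens_pos_F {s : ℤ} (hs : s = 1 ∨ s = -1) (F : Finset ℤ) :
    ∃ δ : ℝ, 0 ≤ δ ∧ δ ≤ 1 ∧ ((∃ a ∈ F, 0 < s * a ∧ ¬ (3 : ℤ) ∣ a) → 0 < δ) ∧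
      Dn (fun n => RF s F () (n : ℤ)) δ := by
  obtain ⟨δ, _, h0, _, _, hpos, hδ, _, _⟩ := laws_side (d := 1) odd_one (by omega) hs F
  exact ⟨δ, h0, dn_le hδ, hpos, hδ⟩

/-- the densities of two disjoint sets -/
theorem dn_add {P Q : ℕ → Prop} {p q : ℝ} (hP : Dn P p) (hQ : Dn Q q) (hPQ : ∀ n, 1 ≤ n → P n → ¬ Q n) : p + q ≤ 1 := by
  refine le_of_tendsto (hP.add hQ) ?_
  filter_upwards [eventually_gt_atTop 0] with N hN
  rw [← add_div, div_le_one (by exact_mod_cast hN)]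
  classical
  rw [Pool.Agent.H499R2.ND.cnt_eq, Pool.Agent.H499R2.ND.cnt_eq]
  have h1 : ((Icc 1 N).filter P).card + ((Icc 1 N).filter Q).card ≤ N := by
    rw [← card_union_of_disjoint]
    · have h2 := card_le_card (show (Icc 1 N).filter P ∪ (Icc 1 N).filter Q ⊆ Icc 1 N from
        union_subset (filter_subset _ _) (filter_subset _ _))
      rwa [Nat.card_Icc, Nat.add_sub_cancel] at h2
    · rw [disjoint_left]
      intro n g1 g2
      rw [mem_filter, mem_Icc] at g1 g2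
      exact hPQ n g1.1.1 g1.2 g2.2
  exact_mod_cast h1

/-- **Meeting a finite set**: large total influence, if the set has an element prime to `3` and there is an integer `b`
prime to `3`, on the same side, whose trajectory does not meet the set and which is not in the trajectory of an element of
the set. -/
theorem large_F {s : ℤ} (hs : s = 1 ∨ s = -1) (F : Finset ℤ) (hF : ∃ a ∈ F, 0 < s * a ∧ ¬ (3 : ℤ) ∣ a) {b : ℤ}
    (hb0 : 0 < s * b) (hb3 : ¬ (3 : ℤ) ∣ b) (hb1 : ∀ j : ℕ, (Td 1)^[j] b ∉ F)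
    (hb2 : ∀ f ∈ F, ∀ j : ℕ, (Td 1)^[j] f ≠ b) :
    Large (fun n : ℕ => RF s F () (n : ℤ)) := by
  obtain ⟨δ, h0, h1, h2, h3⟩ := dens_pos_F hs F
  obtain ⟨δ', h0', h1', h2', h3'⟩ := dens_pos_F hs ({b} : Finset ℤ)
  have hδ' : 0 < δ' := h2' ⟨b, mem_singleton_self b, hb0, hb3⟩
  have hsum := dn_add h3 h3' (fun n _ g1 g2 => by
    obtain ⟨i, hi⟩ := g1
    obtain ⟨j, hj⟩ := g2
    rw [mem_singleton] at hj
    rcases le_total i j with h | h
    · obtain ⟨l, rfl⟩ := Nat.exists_eq_add_of_le h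
      rw [add_comm, Function.iterate_add_apply] at hj
      exact hb2 _ hi l hj
    · obtain ⟨l, rfl⟩ := Nat.exists_eq_add_of_le h
      rw [add_comm, Function.iterate_add_apply, hj] at hi
      exact hb1 l hi)
  intro η hη
  exact influence_fam (A := Unit) hs (RF_fam hs F) () (Q := 1) one_pos (fun _ _ _ => Iff.rfl) (h2 hF) (by linarith) h3 hη

end Pool.Agent.H620.Pre
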