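import Pool.Agent.H620.Pre.Tree

/-! The sets of the integers whose Collatz trajectory meets a finite set: a dichotomy. -/

set_option autoImplicit false

namespace Pool.Agent.H620.Pre

open Finset Filter Topology
open Pool.Agent.H499R2.ND (Dn cnt Phi Td cnt_le)
open Pool.Agent.H620.Inf2 (Large)

/-- the `n` such that the trajectory of `s n` meets `F` -/
def ME (s : ℤ) (F : Finset ℤ) : Set ℕ := {n | 1 ≤ n ∧ ∃ f ∈ F, Hits (s * n) f}

theorem side_C {s x : ℤ} (hs : s = 1 ∨ s = -1) (hx : 0 < s * x) : 0 < s * Cz x := by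
  unfold Cz
  rcases hs with rfl | rfl <;> split_ifs <;> omega

theorem side_hits {s x y : ℤ} (hs : s = 1 ∨ s = -1) (hx : 0 < s * x) (h : Hits x y) : 0 < s * y :=
  Hits.mem (A := {z | 0 < s * z}) (fun _ hz => side_C hs hz) hx h

theorem hits_three {x f : ℤ} (hf : (3 : ℤ) ∣ f) (h : Hits x f) : ∃ j : ℕ, x = 2 ^ j * f := by
  obtain ⟨k, hk⟩ := h
  induction k generalizing x with
  | zero => exact ⟨0, by rw [pow_zero, one_mul]; exact hk⟩
  | succ k ih =>
    rw [Function.iterate_succ_apply] at hk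
    obtain ⟨j, hj⟩ := ih hk
    unfold Cz at hj
    split_ifs at hj with hx
    · refine ⟨j + 1, ?_⟩
      rw [pow_succ]
      have h2 : x = 2 * (x / 2) := by omega
      rw [h2, hj]
      ring
    · exfalso
      obtain ⟨c, rfl⟩ := hf
      have h1 : (3 : ℤ) ∣ 1 := ⟨2 ^ j * c - x, by linarith⟩
      omega

theorem large_ME {s : ℤ} (hs : s = 1 ∨ s = -1) {F : Finset ℤ} (hF : ∃ a ∈ F, 0 < s * a ∧ ¬ (3 : ℤ) ∣ a) {b : ℤ}
    (hb : 0 < s * b) (hb3 : ¬ (3 : ℤ) ∣ b) (h1 : ∀ f ∈ F, ¬ Hits b f) (h2 : ∀ f ∈ F, ¬ Hits f b) :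
    Large (fun n => n ∈ ME s F) := by
  classical
  obtain ⟨a, haF, ha, ha3⟩ := hF
  have h := large_F hs (F.biUnion tg) ⟨a, mem_biUnion.2 ⟨a, haF, self_mem_tg a⟩, ha, ha3⟩ hb hb3 (fun j hj => by
      rw [mem_biUnion] at hj
      obtain ⟨f, hf, hj⟩ := hj
      exact h1 f hf ((hits_iff b f).2 ⟨j, hj⟩)) (by
    intro f' hf' j hj
    rw [mem_biUnion] at hf'
    obtain ⟨f, hfF, hf⟩ := hf'
    rcases tg_hits hf with g | ⟨g0, _, g⟩
    · subst g
      exact h2 _ hfF (by rw [← hj]; exact hits_iter j _)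
    · rcases j with _ | j
      · apply h1 f hfF
        rw [← hj, ← g]
        exact Hits.step f'
      · rw [Function.iterate_succ_apply, Td_odd (x := f') (by
          intro h0
          unfold Cz at g
          rw [if_pos h0] at g
          omega)] at hj
        apply h2 f hfF
        rw [g] at hj
        rw [← hj]
        exact (Hits.step f).trans (hits_iter j _))
  refine Inf2.Large.congr (fun n hn => ?_) h
  constructor
  · rintro ⟨_, f, hf, g⟩
    obtain ⟨j, hj⟩ := (hits_iff _ _).1 g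
    exact ⟨j, mem_biUnion.2 ⟨f, hf, hj⟩⟩
  · rintro ⟨j, hj⟩
    rw [mem_biUnion] at hj
    obtain ⟨f, hf, hj⟩ := hj
    exact ⟨hn, f, hf, (hits_iff _ _).2 ⟨j, hj⟩⟩

theorem Cz_two (x : ℤ) : Cz (2 * x) = x := by unfold Cz; rw [if_pos (by omega)]; omega

theorem iter_two (i : ℕ) (b : ℤ) : Cz^[i] (2 ^ i * b) = b := by
  induction i with
  | zero => simp
  | succ i ih =>
    rw [Function.iterate_succ_apply, show (2 : ℤ) ^ (i + 1) * b = 2 * (2 ^ i * b) by ring, Cz_two, ih]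

/-- a trajectory does not contain all `2 ^ i b` -/
theorem not_all (f : ℤ) {b : ℤ} (hb : b ≠ 0) : ∃ N : ℕ, ∀ i, N ≤ i → ¬ Hits f (2 ^ i * b) := by
  by_contra hcon
  push Not at hcon
  obtain ⟨i₁, _, t₁, h₁⟩ := hcon 0
  obtain ⟨i₂, hi₂, t₂, h₂⟩ := hcon (t₁ + i₁ + 1)
  have e1 : Cz^[i₁ + t₁] f = b := by rw [Function.iterate_add_apply, h₁, iter_two]
  have e2 : Cz^[i₂ + t₂] f = b := by rw [Function.iterate_add_apply, h₂, iter_two]
  -- the trajectory is bounded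
  set v := i₂ + t₂ with hv
  have hlt : i₁ + t₁ < v := by omega
  have hper : ∀ n, ∃ m < v, Cz^[n] f = Cz^[m] f := by
    intro n
    induction n using Nat.strong_induction_on with
    | _ n ih =>
      by_cases hn : n < v
      · exact ⟨n, hn, rfl⟩
      · obtain ⟨m, hm, e⟩ := ih (n - v + (i₁ + t₁)) (by omega)
        refine ⟨m, hm, ?_⟩
        rw [← e]
        have e3 : n = (n - v) + v := by omega
        conv_lhs => rw [e3]
        rw [Function.iterate_add_apply Cz (n - v) v f, Function.iterate_add_apply Cz (n - v) (i₁ + t₁) f, e1, e2]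
  set X := ∑ m ∈ range v, (Cz^[m] f).natAbs with hX
  obtain ⟨i, hi, t, ht⟩ := hcon X
  obtain ⟨m, hm, e⟩ := hper t
  have h3 : (Cz^[m] f).natAbs ≤ X := single_le_sum (f := fun m => (Cz^[m] f).natAbs) (fun _ _ => Nat.zero_le _)
    (mem_range.2 hm)
  rw [← e, ht, Int.natAbs_mul, Int.natAbs_pow] at h3
  have h4 : 1 ≤ b.natAbs := Int.natAbs_pos.2 hb
  have h5 : i < 2 ^ i := Nat.lt_two_pow_self
  have h6 : (Int.natAbs 2) ^ i * 1 ≤ (Int.natAbs 2) ^ i * b.natAbs := Nat.mul_le_mul_left _ h4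
  have h7 : Int.natAbs 2 = 2 := rfl
  rw [h7] at h3 h6
  omega

theorem fall {b f : ℤ} (i : ℕ) (h : Hits (2 ^ i * b) f) : (∃ j ≤ i, f = 2 ^ j * b) ∨ Hits b f := by
  induction i with
  | zero =>
    rw [pow_zero, one_mul] at h
    exact Or.inr h
  | succ i ih =>
    obtain ⟨k, hk⟩ := h
    rcases k with _ | k
    · exact Or.inl ⟨i + 1, le_rfl, hk.symm⟩
    · rw [Function.iterate_succ_apply, show (2 : ℤ) ^ (i + 1) * b = 2 * (2 ^ i * b) by ring, Cz_two] at hk
      rcases ih ⟨k, hk⟩ with ⟨j, hj, e⟩ | g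
      · exact Or.inl ⟨j, by omega, e⟩
      · exact Or.inr g

/-- **few exceptions**: if there is no `b` as in `large_ME` -/
theorem few {s : ℤ} {F : Finset ℤ}
    (h : ∀ b : ℤ, 0 < s * b → ¬ (3 : ℤ) ∣ b → (∀ f ∈ F, ¬ Hits b f) → ∃ f ∈ F, Hits f b) {b : ℤ}
    (hb : 0 < s * b) (hb3 : ¬ (3 : ℤ) ∣ b) (hbF : ∀ f ∈ F, ¬ Hits b f) : b.natAbs ≤ ∑ f ∈ F, f.natAbs := by
  have hb0 : b ≠ 0 := by rintro rfl; simp at hb
  obtain ⟨j, hj⟩ : ∃ j : ℕ, 2 ^ j * b ∈ F := by
    by_contra hcon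
    push Not at hcon
    choose N hN using fun f : ℤ => not_all f hb0
    set M := ∑ f ∈ F, N f with hM
    have h1 : ∀ f ∈ F, ¬ Hits (2 ^ M * b) f := by
      intro f hf g
      rcases fall M g with ⟨j, _, e⟩ | g
      · exact hcon j (e ▸ hf)
      · exact hbF f hf g
    obtain ⟨f, hf, g⟩ := h (2 ^ M * b) (by
      have : s * (2 ^ M * b) = 2 ^ M * (s * b) := by ring
      rw [this]; positivity) (by
        intro g
        rcases Int.prime_three.dvd_or_dvd g with g | g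
        · have := Int.prime_three.dvd_of_dvd_pow g
          omega
        · exact hb3 g) h1
    exact hN f M (single_le_sum (f := fun f => N f) (fun _ _ => Nat.zero_le _) hf) g
  have h2 : (2 ^ j * b).natAbs ≤ ∑ f ∈ F, f.natAbs :=
    single_le_sum (f := fun f : ℤ => f.natAbs) (fun f _ => Nat.zero_le _) hj
  rw [Int.natAbs_mul, Int.natAbs_pow] at h2
  refine le_trans ?_ h2
  exact Nat.le_mul_of_pos_left _ (by positivity)

/-- an odd part -/
theorem odd_part {n : ℕ} (hn : 1 ≤ n) : ∃ j m : ℕ, m % 2 = 1 ∧ n = 2 ^ j * m := by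
  obtain ⟨j, m, h1, h2⟩ := Nat.exists_eq_two_pow_mul_odd (n := n) (by omega)
  exact ⟨j, m, Nat.odd_iff.1 h1, h2⟩

theorem ME_ac0_A {s : ℤ} (hs : s = 1 ∨ s = -1) {F : Finset ℤ} (h : ∀ f ∈ F, 0 < s * f → (3 : ℤ) ∣ f) :
    Inf2.AC0 (ME s F) := by
  refine ac0_sparse (X := ∑ f ∈ F, f.natAbs) false fun n hn hS => ?_
  obtain ⟨_, f, hf, g⟩ := hS
  have hss : s * s = 1 := by rcases hs with rfl | rfl <;> norm_num
  have h1 : 0 < s * f := side_hits hs (by rw [← mul_assoc, hss, one_mul]; exact_mod_cast hn) g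
  obtain ⟨j, hj⟩ := hits_three (h f hf h1) g
  refine ⟨j, f.natAbs, single_le_sum (f := fun f : ℤ => f.natAbs) (fun f _ => Nat.zero_le _) hf, ?_⟩
  have h2 : (s * (n : ℤ)).natAbs = n := by rcases hs with rfl | rfl <;> simp
  rw [← h2, hj, Int.natAbs_mul, Int.natAbs_pow]
  rfl

theorem ME_ac0_B {s : ℤ} (hs : s = 1 ∨ s = -1) {F : Finset ℤ} {X : ℕ}
    (h : ∀ n : ℕ, 1 ≤ n → ¬ 3 ∣ n → X < n → n ∈ ME s F) : Inf2.AC0 (ME s F) := by
  refine ac0_sparse (X := X) true fun n hn hS => ?_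
  simp only [if_true] at hS
  have hss : s * s = 1 := by rcases hs with rfl | rfl <;> norm_num
  obtain ⟨j, m, hm, rfl⟩ := odd_part hn
  refine ⟨j, m, ?_, rfl⟩
  by_contra hcon
  -- the number `m`, or `3 m ± 1`, is in the set
  have hm1 : 1 ≤ m := by omega
  have hup : ∀ f, Hits (s * m) f → Hits (s * ((2 ^ j * m : ℕ) : ℤ)) f := by
    intro f g
    refine Hits.trans ⟨j, ?_⟩ g
    have : s * ((2 ^ j * m : ℕ) : ℤ) = 2 ^ j * (s * m) := by push_cast; ring
    rw [this, iter_two]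
  by_cases h3 : 3 ∣ m
  · have e : Cz (s * m) = s * ((3 * (s * (s * m)) + s : ℤ)) := by
      have h4 : (s * (m : ℤ)) % 2 ≠ 0 := by
        have : (m : ℤ) % 2 = 1 := by exact_mod_cast hm
        rcases hs with rfl | rfl <;> omega
      unfold Cz
      rw [if_neg h4]
      have : s * (3 * (s * (s * m)) + s) = (s * s) * (3 * (s * m)) + s * s := by ring
      rw [this, hss]
      ring
    obtain ⟨q, hq⟩ : ∃ q : ℕ, (q : ℤ) = 3 * (s * (s * m)) + s := by
      refine ⟨(3 * (s * (s * (m : ℤ))) + s).toNat, ?_⟩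
      rw [Int.toNat_of_nonneg]
      rw [← mul_assoc s s, hss, one_mul]
      rcases hs with rfl | rfl <;> omega
    have hq2 : (q : ℤ) = 3 * m + s := by rw [hq, ← mul_assoc s s, hss, one_mul]
    obtain ⟨_, f, hf, g⟩ := h q (by rcases hs with rfl | rfl <;> omega) (by
      intro g
      have : (3 : ℤ) ∣ q := by exact_mod_cast g
      rcases hs with rfl | rfl <;> omega) (by rcases hs with rfl | rfl <;> omega)
    apply hS
    refine ⟨hn, f, hf, hup f ?_⟩
    refine (Hits.step _).trans ?_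
    rw [e, ← hq]
    exact g
  · obtain ⟨_, f, hf, g⟩ := h m hm1 h3 (by omega)
    exact hS ⟨hn, f, hf, hup f g⟩

/-- **The dichotomy.** -/
theorem dichotomy {s : ℤ} (hs : s = 1 ∨ s = -1) (F : Finset ℤ) :
    ((∀ f ∈ F, 0 < s * f → (3 : ℤ) ∣ f) ∨ ∃ X : ℕ, ∀ n : ℕ, 1 ≤ n → ¬ 3 ∣ n → X < n → n ∈ ME s F) ∨
      Large (fun n => n ∈ ME s F) := by
  have hss : s * s = 1 := by rcases hs with rfl | rfl <;> norm_num
  by_cases hA : ∀ f ∈ F, 0 < s * f → (3 : ℤ) ∣ f
  · exact Or.inl (Or.inl hA)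
  push Not at hA
  by_cases hB : ∀ b : ℤ, 0 < s * b → ¬ (3 : ℤ) ∣ b → (∀ f ∈ F, ¬ Hits b f) → ∃ f ∈ F, Hits f b
  · left
    right
    refine ⟨∑ f ∈ F, f.natAbs, fun n hn h3 hX => ?_⟩
    by_contra hcon
    have h1 : ∀ f ∈ F, ¬ Hits (s * n) f := fun f hf g => hcon ⟨hn, f, hf, g⟩
    have h2 := few hB (b := s * n) (by rw [← mul_assoc, hss, one_mul]; exact_mod_cast hn) (by
      intro g
      apply h3
      have : (3 : ℤ) ∣ n := by
        rcases hs with rfl | rfl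
        · simpa using g
        · simpa using g
      exact_mod_cast this) h1
    have h3 : (s * (n : ℤ)).natAbs = n := by rcases hs with rfl | rfl <;> simp
    omega
  · push Not at hB
    obtain ⟨b, hb, hb3, h1, h2⟩ := hB
    obtain ⟨a, ha1, ha2, ha3⟩ := hA
    exact Or.inr (large_ME hs ⟨a, ha1, ha2, ha3⟩ hb hb3 h1 h2)

end Pool.Agent.H620.Pre
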