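import Pool.Agent.H620.Inf2.Depth
import Pool.Graph.R_seed8.H568R2.Collapse

/-! Sets with few elements, and their complements, are in `AC0`. -/

set_option autoImplicit false

namespace Pool.Agent.H620.Pre

open Finset
open DomAC0 (Circuit GateKind)

variable {J : Type}

theorem gv_not (C : Circuit J) (x : J → Bool) (g : Fin C.size) {v : J ⊕ Fin C.size} (hk : C.kind g = GateKind.not)
    (hp : ∀ w, w ∈ C.preds g ↔ w = v) : C.gateVal x g = true ↔ C.nodeVal x v = false := by
  rw [H568R2.gateVal_eq, H568R2.gfun]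
  simp only [hk, hp, decide_eq_true_eq, mem_toList, forall_eq]

theorem gv_and (C : Circuit J) (x : J → Bool) (g : Fin C.size) (hk : C.kind g = GateKind.and) :
    C.gateVal x g = true ↔ ∀ v ∈ C.preds g, C.nodeVal x v = true := by
  rw [H568R2.gateVal_eq, H568R2.gfun]
  simp only [hk, decide_eq_true_eq, mem_toList]

theorem gv_or (C : Circuit J) (x : J → Bool) (g : Fin C.size) (hk : C.kind g = GateKind.or) :
    C.gateVal x g = true ↔ ∃ v ∈ C.preds g, C.nodeVal x v = true := by
  rw [H568R2.gateVal_eq, H568R2.gfun]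
  simp only [hk, decide_eq_true_eq, mem_toList]

theorem gd_le (C : Circuit J) (g : Fin C.size) {D : ℕ} (h : ∀ v ∈ C.preds g, C.nodeDepth v ≤ D) :
    C.gateDepth g ≤ D + 1 := by
  rw [Circuit.gateDepth]
  apply Nat.add_le_add_right
  apply Finset.sup_le
  rintro ⟨v, hv⟩ _
  have := h v hv
  rcases v with j | g'
  · exact Nat.zero_le _
  · exact this

/-- the kinds of the gates -/
def knd (k M : ℕ) (g : Fin (k + M + 2)) : GateKind :=
  if g.val < k then GateKind.not else if g.val < k + M then GateKind.and else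
    if g.val < k + M + 1 then GateKind.or else GateKind.not

/-- the predecessors of the gates -/
noncomputable def prd (k M : ℕ) (f : ℕ → ℕ) (g : Fin (k + M + 2)) : Finset (Fin k ⊕ Fin (k + M + 2)) :=
  if h : g.val < k then {Sum.inl ⟨g.val, h⟩} else if g.val < k + M then
      univ.image (fun j : Fin k => if (f (g.val - k)).testBit j.val = true then Sum.inl j else
        Sum.inr ⟨j.val, by omega⟩) else
    if g.val < k + M + 1 then univ.image (fun i : Fin M => Sum.inr ⟨k + i.val, by omega⟩) else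
      {Sum.inr ⟨k + M, by omega⟩}

section
variable (k M : ℕ) (f : ℕ → ℕ)

theorem mem_prd1 {g : Fin (k + M + 2)} (hg : g.val < k) (v : Fin k ⊕ Fin (k + M + 2)) :
    v ∈ prd k M f g ↔ v = Sum.inl ⟨g.val, hg⟩ := by
  unfold prd
  rw [dif_pos hg, mem_singleton]

theorem mem_prd2 {g : Fin (k + M + 2)} (hg0 : ¬ g.val < k) (hg : g.val < k + M) (v : Fin k ⊕ Fin (k + M + 2)) :
    v ∈ prd k M f g ↔ ∃ j : Fin k, (if (f (g.val - k)).testBit j.val = true then Sum.inl j else
        Sum.inr ⟨j.val, by omega⟩) = v := by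
  unfold prd
  rw [dif_neg hg0, if_pos hg, mem_image]
  simp only [mem_univ, true_and]

theorem mem_prd3 {g : Fin (k + M + 2)} (hg0 : ¬ g.val < k + M) (hg : g.val < k + M + 1) (v : Fin k ⊕ Fin (k + M + 2)) :
    v ∈ prd k M f g ↔ ∃ i : Fin M, Sum.inr ⟨k + i.val, by omega⟩ = v := by
  unfold prd
  rw [dif_neg (by omega), if_neg hg0, if_pos hg, mem_image]
  simp only [mem_univ, true_and]

theorem mem_prd4 {g : Fin (k + M + 2)} (hg : ¬ g.val < k + M + 1) (v : Fin k ⊕ Fin (k + M + 2)) :
    v ∈ prd k M f g ↔ v = Sum.inr ⟨k + M, by omega⟩ := by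
  unfold prd
  rw [dif_neg (by omega), if_neg (by omega), if_neg hg, mem_singleton]

theorem prd_lt (g : Fin (k + M + 2)) (h : Fin (k + M + 2)) (hh : Sum.inr h ∈ prd k M f g) : h < g := by
  rw [Fin.lt_def]
  by_cases h1 : g.val < k
  · rw [mem_prd1 k M f h1] at hh
    cases hh
  · by_cases h2 : g.val < k + M
    · rw [mem_prd2 k M f h1 h2] at hh
      obtain ⟨j, hj⟩ := hh
      split_ifs at hj
      rw [Sum.inr.injEq] at hj
      rw [← hj]
      show j.val < g.val
      omega
    · by_cases h3 : g.val < k + M + 1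
      · rw [mem_prd3 k M f h2 h3] at hh
        obtain ⟨i, hi⟩ := hh
        rw [Sum.inr.injEq] at hi
        rw [← hi]
        show k + i.val < g.val
        omega
      · rw [mem_prd4 k M f h3, Sum.inr.injEq] at hh
        rw [hh]
        show k + M < g.val
        omega

theorem prd_unary (g : Fin (k + M + 2)) (hg : knd k M g = GateKind.not) : (prd k M f g).card = 1 := by
  unfold knd at hg
  unfold prd
  split_ifs at hg ⊢ <;> simp

/-- The circuit that tests if the input is one of `f 0, …, f (M - 1)`, and (with `neg`) the negation of it. -/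
noncomputable def dnf (neg : Bool) : Circuit (Fin k) where
  size := k + M + 2
  kind := knd k M
  preds := prd k M f
  acyclic := prd_lt k M f
  unary := prd_unary k M f
  output := if neg then Sum.inr ⟨k + M + 1, by omega⟩ else Sum.inr ⟨k + M, by omega⟩

variable (neg : Bool) (x : Fin k → Bool)

/-- the value of a gate -/
noncomputable def gv (g : Fin (k + M + 2)) : Bool := (dnf k M f neg).gateVal x g

/-- the value of a node -/
noncomputable def nv (v : Fin k ⊕ Fin (k + M + 2)) : Bool := (dnf k M f neg).nodeVal x v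

theorem val_not (j : Fin k) : gv k M f neg x ⟨j.val, by omega⟩ = true ↔ x j = false := by
  refine gv_not (dnf k M f neg) x _ (v := Sum.inl j) ?_ ?_
  · show knd k M ⟨j.val, by omega⟩ = _
    unfold knd
    rw [if_pos j.isLt]
  · intro w
    exact mem_prd1 k M f (g := ⟨j.val, by omega⟩) j.isLt w

theorem val_and {i : ℕ} (hi : i < M) : gv k M f neg x ⟨k + i, by omega⟩ = true ↔
    ∀ j : Fin k, x j = (f i).testBit j.val := by
  have h0 : gv k M f neg x ⟨k + i, by omega⟩ = true ↔ ∀ v ∈ prd k M f ⟨k + i, by omega⟩, nv k M f neg x v = true := by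
    refine gv_and (dnf k M f neg) x _ ?_
    show knd k M ⟨k + i, by omega⟩ = _
    unfold knd
    rw [if_neg (show ¬ k + i < k by omega), if_pos (show k + i < k + M by omega)]
  rw [h0]
  have h1 := mem_prd2 k M f (g := ⟨k + i, by omega⟩) (show ¬ k + i < k by omega) (show k + i < k + M by omega)
  simp only [Nat.add_sub_cancel_left] at h1
  simp only [h1]
  constructor
  · intro h j
    have h1 := h _ ⟨j, rfl⟩
    by_cases hb : (f i).testBit j.val = true
    · rw [if_pos hb] at h1
      rw [hb]
      exact h1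
    · rw [if_neg hb] at h1
      have h2 := (val_not k M f neg x j).1 h1
      rw [h2]
      simpa using hb
  · rintro h v ⟨j, rfl⟩
    by_cases hb : (f i).testBit j.val = true
    · rw [if_pos hb]
      show x j = true
      rw [h j, hb]
    · rw [if_neg hb]
      apply (val_not k M f neg x j).2
      rw [h j]
      simpa using hb

theorem val_or : gv k M f neg x ⟨k + M, by omega⟩ = true ↔ ∃ i < M, ∀ j : Fin k, x j = (f i).testBit j.val := by
  have h0 : gv k M f neg x ⟨k + M, by omega⟩ = true ↔ ∃ v ∈ prd k M f ⟨k + M, by omega⟩, nv k M f neg x v = true := by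
    refine gv_or (dnf k M f neg) x _ ?_
    show knd k M ⟨k + M, by omega⟩ = _
    unfold knd
    rw [if_neg (show ¬ k + M < k by omega), if_neg (show ¬ k + M < k + M by omega),
      if_pos (show k + M < k + M + 1 by omega)]
  rw [h0]
  have h1 := mem_prd3 k M f (g := ⟨k + M, by omega⟩) (show ¬ k + M < k + M by omega) (show k + M < k + M + 1 by omega)
  simp only [h1]
  constructor
  · rintro ⟨v, ⟨i, rfl⟩, h⟩
    exact ⟨i, i.isLt, (val_and k M f neg x i.isLt).1 h⟩
  · rintro ⟨i, hi, h⟩
    exact ⟨_, ⟨⟨i, hi⟩, rfl⟩, (val_and k M f neg x hi).2 h⟩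

theorem eval_pos : (dnf k M f false).eval x = true ↔ ∃ i < M, ∀ j : Fin k, x j = (f i).testBit j.val :=
  val_or k M f false x

theorem eval_neg : (dnf k M f true).eval x = true ↔ ¬ ∃ i < M, ∀ j : Fin k, x j = (f i).testBit j.val := by
  rw [← val_or k M f true x]
  have h : gv k M f true x ⟨k + M + 1, by omega⟩ = true ↔ gv k M f true x ⟨k + M, by omega⟩ = false := by
    refine gv_not (dnf k M f true) x _ (v := Sum.inr ⟨k + M, by show k + M < k + M + 2; omega⟩) ?_ ?_
    · show knd k M ⟨k + M + 1, by omega⟩ = _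
      unfold knd
      rw [if_neg (show ¬ k + M + 1 < k by omega), if_neg (show ¬ k + M + 1 < k + M by omega),
        if_neg (show ¬ k + M + 1 < k + M + 1 by omega)]
    · intro w
      exact mem_prd4 k M f (g := ⟨k + M + 1, by omega⟩) (show ¬ k + M + 1 < k + M + 1 by omega) w
  refine h.trans ?_
  rw [Bool.not_eq_true]

theorem depth_le : (dnf k M f neg).depth ≤ 4 := by
  have h1 : ∀ g : Fin (k + M + 2), g.val < k → (dnf k M f neg).gateDepth g ≤ 1 := by
    intro g hg
    refine gd_le (dnf k M f neg) g (D := 0) ?_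
    intro v hv
    have e := (mem_prd1 k M f hg v).1 hv
    rw [e]
    exact le_rfl
  have h2 : ∀ g : Fin (k + M + 2), g.val < k + M → (dnf k M f neg).gateDepth g ≤ 2 := by
    intro g hg
    by_cases h0 : g.val < k
    · exact (h1 g h0).trans (by norm_num)
    refine gd_le (dnf k M f neg) g (D := 1) ?_
    intro v hv
    obtain ⟨j, rfl⟩ := (mem_prd2 k M f h0 hg v).1 hv
    split_ifs
    · exact Nat.zero_le _
    · exact h1 _ j.isLt
  have h3 : ∀ g : Fin (k + M + 2), g.val < k + M + 1 → (dnf k M f neg).gateDepth g ≤ 3 := by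
    intro g hg
    by_cases h0 : g.val < k + M
    · exact (h2 g h0).trans (by norm_num)
    refine gd_le (dnf k M f neg) g (D := 2) ?_
    intro v hv
    obtain ⟨i, rfl⟩ := (mem_prd3 k M f h0 hg v).1 hv
    exact h2 _ (by show k + i.val < k + M; omega)
  rcases neg with _ | _
  · have := h3 ⟨k + M, by omega⟩ (by show k + M < k + M + 1; omega)
    exact this.trans (by norm_num)
  · have h4 : (dnf k M f true).gateDepth (⟨k + M + 1, by omega⟩ : Fin (k + M + 2)) ≤ 3 + 1 := by
      refine gd_le (dnf k M f true) _ ?_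
      intro v hv
      have e := (mem_prd4 k M f (g := ⟨k + M + 1, by omega⟩) (show ¬ k + M + 1 < k + M + 1 by omega) v).1 hv
      rw [e]
      exact h3 _ (by show k + M < k + M + 1; omega)
    exact h4

end

theorem bits_eq {k n m : ℕ} (hn : n < 2 ^ k) (hm : m < 2 ^ k) : (∀ j : Fin k, n.testBit j = m.testBit j.val) ↔ n = m := by
  constructor
  · intro h
    apply Nat.eq_of_testBit_eq
    intro i
    by_cases hi : i < k
    · exact h ⟨i, hi⟩
    · rw [Nat.testBit_lt_two_pow (hn.trans_le (Nat.pow_le_pow_right (by norm_num) (by omega))),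
        Nat.testBit_lt_two_pow (hm.trans_le (Nat.pow_le_pow_right (by norm_num) (by omega)))]
  · rintro rfl j
    rfl

/-- few elements below `2 ^ k` -/
theorem ac0_of {S : Set ℕ} {C : ℕ} (h : ∀ k : ℕ, 2 ≤ k → ∃ (M : ℕ) (f : ℕ → ℕ) (neg : Bool), M ≤ C * k ∧
    (∀ i < M, f i < 2 ^ k) ∧
    ∀ n, 1 ≤ n → n < 2 ^ k → ((if neg then ¬ ∃ i < M, n = f i else ∃ i < M, n = f i) ↔ n ∈ S)) : Inf2.AC0 S := by
  refine ⟨4, C + 2, fun k hk => ?_⟩
  rcases hk.eq_or_lt with h1 | h1
  · subst h1
    by_cases h2 : 1 ∈ S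
    · refine ⟨Inf2.oneC 1, by rw [Inf2.oneC_depth]; norm_num, by simp [Inf2.oneC], fun n hn hn2 => ?_⟩
      rw [Inf2.oneC_eval]
      have : n = 1 := by omega
      subst this
      exact ⟨fun _ => h2, fun _ => rfl⟩
    · refine ⟨Inf2.zeroC 1, by rw [Inf2.zeroC_depth]; norm_num, by simp [Inf2.zeroC], fun n hn hn2 => ?_⟩
      rw [Inf2.zeroC_eval]
      have : n = 1 := by omega
      subst this
      exact ⟨fun g => absurd g (by simp), fun g => absurd g h2⟩
  · obtain ⟨M, f, neg, hM, hf, hS⟩ := h k h1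
    refine ⟨dnf k M f neg, depth_le k M f neg, ?_, fun n hn hn2 => ?_⟩
    · show k + M + 2 ≤ k ^ (C + 2)
      have h3 : C + 2 ≤ k ^ (C + 1) := by
        calc C + 2 = (C + 1) + 1 := rfl
          _ ≤ 2 ^ (C + 1) := Nat.lt_two_pow_self
          _ ≤ k ^ (C + 1) := Nat.pow_le_pow_left h1 _
      calc k + M + 2 ≤ k + C * k + k := by omega
        _ = (C + 2) * k := by ring
        _ ≤ k ^ (C + 1) * k := by gcongr
        _ = k ^ (C + 2) := by ring
    · rw [← hS n hn hn2]
      have e : (∃ i < M, ∀ j : Fin k, n.testBit j = (f i).testBit j.val) ↔ ∃ i < M, n = f i := by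
        constructor
        · rintro ⟨i, hi, g⟩
          exact ⟨i, hi, (bits_eq hn2 (hf i hi)).1 g⟩
        · rintro ⟨i, hi, g⟩
          exact ⟨i, hi, (bits_eq hn2 (hf i hi)).2 g⟩
      rcases neg with _ | _
      · rw [eval_pos]
        simpa using e
      · rw [eval_neg]
        simpa using not_congr e

/-- Finitely many geometric progressions of ratio `2` contain the set, or the complement (`neg`) -/
theorem ac0_sparse {S : Set ℕ} {X : ℕ} (neg : Bool)
    (h : ∀ n, 1 ≤ n → (if neg then n ∉ S else n ∈ S) → ∃ j m : ℕ, m ≤ X ∧ n = 2 ^ j * m) : Inf2.AC0 S := by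
  classical
  refine ac0_of (C := 2 * (X + 1)) fun k hk => ?_
  refine ⟨(k + 1) * (X + 1), fun i => if 2 ^ (i / (X + 1)) * (i % (X + 1)) < 2 ^ k ∧
    (if neg then 2 ^ (i / (X + 1)) * (i % (X + 1)) ∉ S else 2 ^ (i / (X + 1)) * (i % (X + 1)) ∈ S) then
      2 ^ (i / (X + 1)) * (i % (X + 1)) else 0, neg, ?_, ?_, ?_⟩
  · have : k + 1 ≤ 2 * k := by omega
    calc (k + 1) * (X + 1) ≤ (2 * k) * (X + 1) := Nat.mul_le_mul_right _ this
      _ = 2 * (X + 1) * k := by ring
  · intro i _
    by_cases hc : 2 ^ (i / (X + 1)) * (i % (X + 1)) < 2 ^ k ∧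
      (if neg then 2 ^ (i / (X + 1)) * (i % (X + 1)) ∉ S else 2 ^ (i / (X + 1)) * (i % (X + 1)) ∈ S)
    · simp only [if_pos hc]
      exact hc.1
    · simp only [if_neg hc]
      positivity
  · intro n hn hn2
    have key : (∃ i < (k + 1) * (X + 1), n = (if 2 ^ (i / (X + 1)) * (i % (X + 1)) < 2 ^ k ∧
        (if neg then 2 ^ (i / (X + 1)) * (i % (X + 1)) ∉ S else 2 ^ (i / (X + 1)) * (i % (X + 1)) ∈ S) then
        2 ^ (i / (X + 1)) * (i % (X + 1)) else 0)) ↔ (if neg then n ∉ S else n ∈ S) := by
      constructor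
      · rintro ⟨i, _, hi⟩
        by_cases hc : 2 ^ (i / (X + 1)) * (i % (X + 1)) < 2 ^ k ∧
          (if neg then 2 ^ (i / (X + 1)) * (i % (X + 1)) ∉ S else 2 ^ (i / (X + 1)) * (i % (X + 1)) ∈ S)
        · rw [if_pos hc] at hi
          rw [hi]
          exact hc.2
        · rw [if_neg hc] at hi
          omega
      · intro hS
        obtain ⟨j, m, hm, e⟩ := h n hn hS
        have hj : j ≤ k := by
          by_contra hcon
          have h1 : 2 ^ k ≤ 2 ^ j := Nat.pow_le_pow_right (by norm_num) (by omega)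
          have h2 : 1 ≤ m := by
            rcases Nat.eq_zero_or_pos m with h0 | h0
            · rw [h0, mul_zero] at e; omega
            · exact h0
          have h3 : 2 ^ j * 1 ≤ 2 ^ j * m := Nat.mul_le_mul_left _ h2
          omega
        have e1 : (j * (X + 1) + m) / (X + 1) = j := by
          rw [mul_comm, Nat.mul_add_div (by omega), Nat.div_eq_of_lt (by omega), add_zero]
        have e2 : (j * (X + 1) + m) % (X + 1) = m := by
          rw [mul_comm, Nat.mul_add_mod, Nat.mod_eq_of_lt (by omega)]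
        refine ⟨j * (X + 1) + m, ?_, ?_⟩
        · calc j * (X + 1) + m < j * (X + 1) + (X + 1) := by omega
            _ = (j + 1) * (X + 1) := by ring
            _ ≤ (k + 1) * (X + 1) := Nat.mul_le_mul_right _ (by omega)
        · rw [e1, e2, ← e, if_pos ⟨hn2, hS⟩]
    rcases neg with _ | _
    · simpa using key
    · simp only [if_true] at key ⊢
      rw [key, not_not]

end Pool.Agent.H620.Pre
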