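import Pool.Agent.H620.Pre.Base
import Pool.Agent.H620.Pre.Dnf
import Pool.Agent.H620.Inf2.Side

/-! Sets of integers determined by the tail of the trajectory and by finitely many possible elements: a dichotomy. -/

set_option autoImplicit false

namespace Pool.Agent.H620.Pre

open Finset Filter Topology
open Pool.Agent.H499R2.ND (Dn cnt Phi Td cnt_le cnt_eq cnt_mono Inv dens_side HD_ncard)
open Pool.Agent.H620.Inf2 (Sg Fam Large influence_fam)
open Pool.Agent.H620.Thr (T_sd dn_le)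

namespace Tail

/-- `y` is a term of the trajectory of `x` -/
def Hit (x y : ℤ) : Prop := ∃ k : ℕ, (Td 1)^[k] x = y

/-- a common term -/
def Mg (x y : ℤ) : Prop := ∃ i j : ℕ, (Td 1)^[i] x = (Td 1)^[j] y

theorem Hit.refl (x : ℤ) : Hit x x := ⟨0, rfl⟩

theorem Hit.trans {x y z : ℤ} (h : Hit x y) (h' : Hit y z) : Hit x z := by
  obtain ⟨k, rfl⟩ := h
  obtain ⟨l, rfl⟩ := h'
  exact ⟨l + k, Function.iterate_add_apply _ _ _ _⟩

theorem Hit.step (x : ℤ) : Hit x (Td 1 x) := ⟨1, rfl⟩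

theorem Hit.mg {x y : ℤ} (h : Hit x y) : Mg x y := by
  obtain ⟨k, hk⟩ := h
  exact ⟨k, 0, hk⟩

theorem Mg.symm {x y : ℤ} (h : Mg x y) : Mg y x := by
  obtain ⟨i, j, h⟩ := h
  exact ⟨j, i, h.symm⟩

theorem Mg.trans {x y z : ℤ} (h : Mg x y) (h' : Mg y z) : Mg x z := by
  obtain ⟨i, j, h⟩ := h
  obtain ⟨k, l, h'⟩ := h'
  refine ⟨k + i, j + l, ?_⟩
  rw [Function.iterate_add_apply, h, ← Function.iterate_add_apply, add_comm k j, Function.iterate_add_apply, h',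
    ← Function.iterate_add_apply]

/-- two terms of a trajectory -/
theorem Hit.comp {x y z : ℤ} (h : Hit x y) (h' : Hit x z) : Hit y z ∨ Hit z y := by
  obtain ⟨k, rfl⟩ := h
  obtain ⟨l, rfl⟩ := h'
  rcases le_total k l with g | g
  · obtain ⟨m, rfl⟩ := Nat.exists_eq_add_of_le g
    left
    refine ⟨m, ?_⟩
    rw [add_comm, Function.iterate_add_apply]
  · obtain ⟨m, rfl⟩ := Nat.exists_eq_add_of_le g
    right
    refine ⟨m, ?_⟩
    rw [add_comm, Function.iterate_add_apply]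

theorem T_two (x : ℤ) : Td 1 (2 * x) = x := by unfold Td; rw [if_pos (by omega)]; omega

theorem iter_two (i : ℕ) (b : ℤ) : (Td 1)^[i] (2 ^ i * b) = b := by
  induction i with
  | zero => simp
  | succ i ih =>
    rw [Function.iterate_succ_apply, show (2 : ℤ) ^ (i + 1) * b = 2 * (2 ^ i * b) by ring, T_two, ih]

/-- a trajectory does not contain all `2 ^ i b` -/
theorem not_all (f : ℤ) {b : ℤ} (hb : b ≠ 0) : ∃ N : ℕ, ∀ i, N ≤ i → ¬ Hit f (2 ^ i * b) := by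
  by_contra hcon
  push Not at hcon
  obtain ⟨i₁, _, t₁, h₁⟩ := hcon 0
  obtain ⟨i₂, hi₂, t₂, h₂⟩ := hcon (t₁ + i₁ + 1)
  have e1 : (Td 1)^[i₁ + t₁] f = b := by rw [Function.iterate_add_apply, h₁, iter_two]
  have e2 : (Td 1)^[i₂ + t₂] f = b := by rw [Function.iterate_add_apply, h₂, iter_two]
  set v := i₂ + t₂ with hv
  have hlt : i₁ + t₁ < v := by omega
  have hper : ∀ n, ∃ m < v, (Td 1)^[n] f = (Td 1)^[m] f := by
    intro n
    induction n using Nat.strong_induction_on with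
    | _ n ih =>
      by_cases hn : n < v
      · exact ⟨n, hn, rfl⟩
      · obtain ⟨m, hm, e⟩ := ih (n - v + (i₁ + t₁)) (by omega)
        refine ⟨m, hm, ?_⟩
        rw [← e]
        have e3 : n = (n - v) + v := by omega
        conv_lhs => rw [e3]
        rw [Function.iterate_add_apply (Td 1) (n - v) v f, Function.iterate_add_apply (Td 1) (n - v) (i₁ + t₁) f, e1, e2]
  set X := ∑ m ∈ range v, ((Td 1)^[m] f).natAbs with hX
  obtain ⟨i, hi, t, ht⟩ := hcon X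
  obtain ⟨m, hm, e⟩ := hper t
  have h3 : ((Td 1)^[m] f).natAbs ≤ X := single_le_sum (f := fun m => ((Td 1)^[m] f).natAbs) (fun _ _ => Nat.zero_le _)
    (mem_range.2 hm)
  rw [← e, ht, Int.natAbs_mul, Int.natAbs_pow] at h3
  have h4 : 1 ≤ b.natAbs := Int.natAbs_pos.2 hb
  have h5 : i < 2 ^ i := Nat.lt_two_pow_self
  have h6 : (Int.natAbs 2) ^ i * 1 ≤ (Int.natAbs 2) ^ i * b.natAbs := Nat.mul_le_mul_left _ h4
  have h7 : Int.natAbs 2 = 2 := rfl
  rw [h7] at h3 h6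
  omega

theorem fall {b f : ℤ} (i : ℕ) (h : Hit (2 ^ i * b) f) : (∃ j ≤ i, f = 2 ^ j * b) ∨ Hit b f := by
  induction i with
  | zero =>
    rw [pow_zero, one_mul] at h
    exact Or.inr h
  | succ i ih =>
    obtain ⟨k, hk⟩ := h
    rcases k with _ | k
    · exact Or.inl ⟨i + 1, le_rfl, hk.symm⟩
    · rw [Function.iterate_succ_apply, show (2 : ℤ) ^ (i + 1) * b = 2 * (2 ^ i * b) by ring, T_two] at hk
      rcases ih ⟨k, hk⟩ with ⟨j, hj, e⟩ | g
      · exact Or.inl ⟨j, by omega, e⟩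
      · exact Or.inr g

/-! ### densities -/

theorem dn_union {P Q : ℕ → Prop} {p q : ℝ} (hP : Dn P p) (hQ : Dn Q q) (hPQ : ∀ n, 1 ≤ n → P n → ¬ Q n) :
    Dn (fun n => P n ∨ Q n) (p + q) := by
  refine (hP.add hQ).congr fun N => ?_
  classical
  rw [← add_div]
  congr 1
  rw [cnt_eq, cnt_eq, cnt_eq]
  have : (Icc 1 N).filter (fun n => P n ∨ Q n) = (Icc 1 N).filter P ∪ (Icc 1 N).filter Q := by
    ext n; simp only [mem_filter, mem_union]; tauto
  rw [this, card_union_of_disjoint]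
  · push_cast; rfl
  · rw [disjoint_left]
    intro n g1 g2
    rw [mem_filter, mem_Icc] at g1 g2
    exact hPQ n g1.1.1 g1.2 g2.2

theorem dn_sub {P Q : ℕ → Prop} {p q : ℝ} (hP : Dn P p) (hQ : Dn Q q) (hPQ : ∀ n, 1 ≤ n → Q n → P n) :
    Dn (fun n => P n ∧ ¬ Q n) (p - q) := by
  refine (hP.sub hQ).congr fun N => ?_
  classical
  rw [← sub_div]
  congr 1
  rw [cnt_eq, cnt_eq, cnt_eq]
  have : (Icc 1 N).filter P = (Icc 1 N).filter (fun n => P n ∧ ¬ Q n) ∪ (Icc 1 N).filter Q := by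
    ext n
    simp only [mem_filter, mem_union, mem_Icc]
    constructor
    · rintro ⟨h1, h2⟩
      by_cases h3 : Q n
      · exact Or.inr ⟨h1, h3⟩
      · exact Or.inl ⟨h1, h2, h3⟩
    · rintro (⟨h1, h2, _⟩ | ⟨h1, h2⟩)
      · exact ⟨h1, h2⟩
      · exact ⟨h1, hPQ n h1.1 h2⟩
  rw [this, card_union_of_disjoint]
  · push_cast; ring
  · rw [disjoint_left]
    intro n g1 g2
    rw [mem_filter] at g1 g2
    exact g1.2.2 g2.2

theorem dn_congr {P Q : ℕ → Prop} {p : ℝ} (hP : Dn P p) (h : ∀ n, 1 ≤ n → (P n ↔ Q n)) : Dn Q p := by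
  refine hP.congr fun N => ?_
  classical
  congr 1
  rw [cnt_eq, cnt_eq]
  congr 2
  ext n
  simp only [mem_filter, mem_Icc]
  exact and_congr_right fun g => h n g.1

theorem dn_zero : Dn (fun _ => False) 0 := by
  refine tendsto_const_nhds.congr fun N => ?_
  classical
  rw [cnt_eq]
  simp

theorem dn_finset {ι : Type*} [DecidableEq ι] (t : Finset ι) {P : ι → ℕ → Prop} (h : ∀ i ∈ t, ∃ l, Dn (P i) l)
    (hd : ∀ i ∈ t, ∀ j ∈ t, ∀ n, P i n → P j n → i = j) : ∃ l, Dn (fun n => ∃ i ∈ t, P i n) l := by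
  induction t using Finset.induction_on with
  | empty => exact ⟨0, dn_congr dn_zero fun n _ => by simp⟩
  | insert a t ha ih =>
    obtain ⟨p, hp⟩ := h a (mem_insert_self a t)
    obtain ⟨q, hq⟩ := ih (fun i hi => h i (mem_insert_of_mem hi)) fun i hi j hj =>
      hd i (mem_insert_of_mem hi) j (mem_insert_of_mem hj)
    refine ⟨p + q, dn_congr (dn_union hp hq ?_) fun n _ => ?_⟩
    · rintro n _ g1 ⟨j, hj, g2⟩
      exact ha (by rw [hd a (mem_insert_self a t) j (mem_insert_of_mem hj) n g1 g2]; exact hj)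
    · simp only [mem_insert, exists_eq_or_imp]

theorem inv_dn {s : ℤ} (hs : s = 1 ∨ s = -1) {S : Set ℤ} (hS : Inv 1 S) : ∃ l, Dn (fun n => s * (n : ℤ) ∈ S) l := by
  obtain ⟨l, hl0, hl1, hl⟩ := dens_side odd_one isCoprime_one_left hs hS
  have hss : s * s = 1 := by rcases hs with rfl | rfl <;> norm_num
  refine ⟨l, ?_⟩
  refine (HD_ncard hs hl).congr fun N => ?_
  unfold cnt
  congr 2
  have : {n : ℤ | 0 < s * n ∧ s * n ≤ N ∧ n ∈ S} =
      (fun n : ℕ => s * (n : ℤ)) '' {n : ℕ | 1 ≤ n ∧ n ≤ N ∧ s * (n : ℤ) ∈ S} := by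
    ext x
    simp only [Set.mem_ofPred_eq, Set.mem_image]
    constructor
    · rintro ⟨g1, g2, g3⟩
      have e : ((s * x).toNat : ℤ) = s * x := Int.toNat_of_nonneg g1.le
      have e2 : s * ((s * x).toNat : ℤ) = x := by rw [e, ← mul_assoc, hss, one_mul]
      refine ⟨(s * x).toNat, ⟨by omega, by omega, ?_⟩, e2⟩
      rw [e2]; exact g3
    · rintro ⟨n, ⟨g1, g2, g3⟩, rfl⟩
      have e : s * (s * (n : ℤ)) = n := by rw [← mul_assoc, hss, one_mul]
      refine ⟨by rw [e]; exact_mod_cast g1, by rw [e]; exact_mod_cast g2, g3⟩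
  rw [this, Set.ncard_image_of_injective]
  intro x y hxy
  have h3 : s * (s * (x : ℤ)) = s * (s * (y : ℤ)) := by simp only at hxy; rw [hxy]
  rw [← mul_assoc, ← mul_assoc, hss, one_mul, one_mul] at h3
  exact_mod_cast h3

theorem dn_meets {s : ℤ} (hs : s = 1 ∨ s = -1) (F : Finset ℤ) : ∃ l, Dn (fun n => ∃ f ∈ F, Hit (s * n) f) l := by
  obtain ⟨δ, _, _, _, h⟩ := dens_pos_F hs F
  refine ⟨δ, dn_congr h fun n _ => ?_⟩
  constructor
  · rintro ⟨j, hj⟩
    exact ⟨_, hj, j, rfl⟩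
  · rintro ⟨f, hf, j, hj⟩
    exact ⟨j, by rw [hj]; exact hf⟩

/-- in `S`, no element of `U`, all elements of `V` -/
def AH (s : ℤ) (S : Set ℤ) (U V : Finset ℤ) (n : ℕ) : Prop :=
  s * n ∈ S ∧ (∀ a ∈ U, ¬ Hit (s * n) a) ∧ ∀ a ∈ V, Hit (s * n) a

theorem hit_inv {S : Set ℤ} (hS : Inv 1 S) {x y : ℤ} (h : Hit x y) : x ∈ S ↔ y ∈ S := by
  obtain ⟨k, rfl⟩ := h
  induction k with
  | zero => rfl
  | succ k ih => rw [Function.iterate_succ_apply', ih]; exact hS _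

theorem dn_AH {s : ℤ} (hs : s = 1 ∨ s = -1) {S : Set ℤ} (hS : Inv 1 S) (V : Finset ℤ) :
    ∀ U : Finset ℤ, ∃ l, Dn (AH s S U V) l := by
  classical
  induction V using Finset.induction_on with
  | empty =>
    intro U
    obtain ⟨p, hp⟩ := inv_dn hs hS
    obtain ⟨q, hq⟩ := dn_meets hs (U.filter (· ∈ S))
    refine ⟨p - q, dn_congr (dn_sub hp hq ?_) fun n _ => ?_⟩
    · rintro n _ ⟨f, hf, g⟩
      rw [mem_filter] at hf
      exact (hit_inv hS g).2 hf.2
    · unfold AH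
      constructor
      · rintro ⟨g1, g2⟩
        exact ⟨g1, fun a ha g => g2 ⟨a, mem_filter.2 ⟨ha, (hit_inv hS g).1 g1⟩, g⟩, by simp⟩
      · rintro ⟨g1, g2, _⟩
        exact ⟨g1, fun ⟨f, hf, g⟩ => g2 f (mem_filter.1 hf).1 g⟩
  | insert a V _ ih =>
    intro U
    obtain ⟨p, hp⟩ := ih U
    obtain ⟨q, hq⟩ := ih (insert a U)
    refine ⟨p - q, dn_congr (dn_sub hp hq ?_) fun n _ => ?_⟩
    · rintro n _ ⟨g1, g2, g3⟩
      exact ⟨g1, fun b hb => g2 b (mem_insert_of_mem hb), g3⟩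
    · unfold AH
      constructor
      · rintro ⟨⟨g1, g2, g3⟩, g4⟩
        refine ⟨g1, g2, fun b hb => ?_⟩
        rcases mem_insert.1 hb with rfl | hb
        · by_contra hcon
          apply g4
          refine ⟨g1, fun c hc => ?_, g3⟩
          rcases mem_insert.1 hc with rfl | hc
          · exact hcon
          · exact g2 c hc
        · exact g3 b hb
      · rintro ⟨g1, g2, g3⟩
        exact ⟨⟨g1, g2, fun b hb => g3 b (mem_insert_of_mem hb)⟩,
          fun g4 => g4.2.1 a (mem_insert_self a U) (g3 a (mem_insert_self a V))⟩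

/-! ### the sets -/

/-- the membership of `n` in `B` depends only on the tail of the trajectory of `s n` and on the elements of `A` which it
contains -/
def Det (s : ℤ) (A : Finset ℤ) (B : Set ℕ) : Prop :=
  ∀ n n' : ℕ, 1 ≤ n → 1 ≤ n' → Mg (s * n) (s * n') → (∀ a ∈ A, Hit (s * n) a ↔ Hit (s * n') a) → (n ∈ B ↔ n' ∈ B)

variable {s : ℤ} {A : Finset ℤ} {B : Set ℕ}

theorem Det.compl (h : Det s A B) : Det s A Bᶜ := fun n n' h1 h2 h3 h4 => not_congr (h n n' h1 h2 h3 h4)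

theorem det_dn (hs : s = 1 ∨ s = -1) (h : Det s A B) : ∃ l, Dn (fun n => n ∈ B) l := by
  classical
  let I : Finset ℤ → Set ℤ := fun τ => {x | ∃ n : ℕ, 1 ≤ n ∧ n ∈ B ∧ (∀ a ∈ A, Hit (s * n) a ↔ a ∈ τ) ∧ Mg x (s * n)}
  have hI : ∀ τ, Inv 1 (I τ) := by
    intro τ x
    constructor
    · rintro ⟨n, h1, h2, h3, h4⟩
      exact ⟨n, h1, h2, h3, ((Hit.step x).mg.symm).trans h4⟩
    · rintro ⟨n, h1, h2, h3, h4⟩
      exact ⟨n, h1, h2, h3, ((Hit.step x).mg).trans h4⟩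
  obtain ⟨l, hl⟩ := dn_finset A.powerset (P := fun τ => AH s (I τ) (A \ τ) τ) (fun τ _ => dn_AH hs (hI τ) τ _) (by
    intro τ hτ τ' hτ' n g g'
    rw [mem_powerset] at hτ hτ'
    ext a
    constructor
    · intro ha
      by_contra ha'
      exact g'.2.1 a (mem_sdiff.2 ⟨hτ ha, ha'⟩) (g.2.2 a ha)
    · intro ha
      by_contra ha'
      exact g.2.1 a (mem_sdiff.2 ⟨hτ' ha, ha'⟩) (g'.2.2 a ha))
  refine ⟨l, dn_congr hl fun n hn => ?_⟩
  constructor
  · rintro ⟨τ, hτ, ⟨m, h1, h2, h3, h4⟩, g2, g3⟩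
    rw [mem_powerset] at hτ
    refine (h n m hn h1 h4 fun a ha => ?_).2 h2
    rw [h3 a ha]
    constructor
    · intro g
      by_contra ha'
      exact g2 a (mem_sdiff.2 ⟨ha, ha'⟩) g
    · exact fun g => g3 a g
  · intro hB
    refine ⟨A.filter (fun a => Hit (s * n) a), mem_powerset.2 (filter_subset _ _), ⟨n, hn, hB, fun a ha => ?_,
      (Hit.refl _).mg⟩, fun a ha g => ?_, fun a ha => (mem_filter.1 ha).2⟩
    · rw [mem_filter]; exact ⟨fun g => ⟨ha, g⟩, fun g => g.2⟩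
    · obtain ⟨h1, h2⟩ := mem_sdiff.1 ha
      exact h2 (mem_filter.2 ⟨h1, g⟩)

theorem natAbs_side (hs : s = 1 ∨ s = -1) (n : ℕ) : (s * (n : ℤ)).natAbs = n := by
  rcases hs with rfl | rfl <;> simp

theorem le_X {a : ℤ} (ha : a ∈ A) : a.natAbs ≤ ∑ a ∈ A, a.natAbs :=
  single_le_sum (f := fun f : ℤ => f.natAbs) (fun f _ => Nat.zero_le _) ha

/-- the elements of `A` are not terms `2 ^ j b` with a large `b` -/
theorem pow_not_mem (hs : s = 1 ∨ s = -1) {b j : ℕ} (hb : (∑ a ∈ A, a.natAbs) < b) : 2 ^ j * (s * (b : ℤ)) ∉ A := by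
  intro g
  have h1 := le_X g
  rw [Int.natAbs_mul, natAbs_side hs, Int.natAbs_pow] at h1
  have h2 : 1 * b ≤ (Int.natAbs 2) ^ j * b := Nat.mul_le_mul_right _ (Nat.one_le_pow _ _ (by decide))
  generalize (∑ a ∈ A, a.natAbs) = X at *
  omega

theorem pos_of (hs : s = 1 ∨ s = -1) (h : Det s A B) {b : ℕ} (hb : b ∈ B) (hb3 : ¬ 3 ∣ b)
    (hbX : (∑ a ∈ A, a.natAbs) < b) {l : ℝ} (hl : Dn (fun n => n ∈ B) l) : 0 < l := by
  have hss : s * s = 1 := by rcases hs with rfl | rfl <;> norm_num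
  have hb1 : 1 ≤ b := by omega
  have hsb : s * (b : ℤ) ≠ 0 := by
    intro g
    have := natAbs_side hs b
    rw [g] at this
    simp at this
    omega
  choose N hN using fun f : ℤ => not_all f hsb
  set i := ∑ a ∈ A, N a with hi
  have h1 : ∀ a ∈ A, ¬ Hit a (2 ^ i * (s * b)) := fun a ha =>
    hN a i (single_le_sum (f := fun f => N f) (fun _ _ => Nat.zero_le _) ha)
  obtain ⟨δ, _, _, hδ, hd⟩ := dens_pos_F hs ({2 ^ i * (s * (b : ℤ))} : Finset ℤ)
  have hδ0 : 0 < δ := hδ ⟨_, mem_singleton_self _, by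
    have : s * (2 ^ i * (s * (b : ℤ))) = (s * s) * (2 ^ i * b) := by ring
    rw [this, hss, one_mul]
    have : (0 : ℤ) < b := by exact_mod_cast hb1
    positivity, by
    intro g
    rcases Int.prime_three.dvd_or_dvd g with g | g
    · have := Int.prime_three.dvd_of_dvd_pow g
      omega
    · apply hb3
      have : (3 : ℤ) ∣ b := by
        rcases hs with rfl | rfl
        · simpa using g
        · simpa using g
      exact_mod_cast this⟩
  refine hδ0.trans_le (le_of_tendsto_of_tendsto' hd hl fun M => ?_)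
  refine div_le_div_of_nonneg_right ?_ (Nat.cast_nonneg M)
  refine cnt_mono M fun n hn _ g => ?_
  obtain ⟨k, hk⟩ := g
  rw [mem_singleton] at hk
  have h2 : Hit (s * n) (2 ^ i * (s * b)) := ⟨k, hk⟩
  have h3 : Hit (2 ^ i * (s * b)) (s * b) := ⟨i, iter_two i _⟩
  refine (h n b hn hb1 (h2.trans h3).mg fun a ha => ⟨fun g => ?_, fun g => (h2.trans h3).trans g⟩).2 hb
  rcases h2.comp g with g' | g'
  · rcases fall i g' with ⟨j, _, e⟩ | g''
    · exact absurd (e ▸ ha) (pow_not_mem hs hbX)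
    · exact g''
  · exact absurd g' (h1 a ha)

/-- one step from a large number -/
theorem step_hit {x a : ℤ} (h : Hit x a) (h1 : x ≠ a) : Hit (Td 1 x) a := by
  obtain ⟨k, hk⟩ := h
  rcases k with _ | k
  · exact absurd hk h1
  · exact ⟨k, by rwa [Function.iterate_succ_apply] at hk⟩

theorem det_step (hs : s = 1 ∨ s = -1) (h : Det s A B) {n m : ℕ} (hn : (∑ a ∈ A, a.natAbs) < n) (hm : 1 ≤ m)
    (e : Td 1 (s * n) = s * m) : n ∈ B ↔ m ∈ B := by
  refine h n m (by omega) hm ?_ fun a ha => ⟨fun g => ?_, fun g => ?_⟩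
  · rw [← e]; exact (Hit.step _).mg
  · rw [← e]
    refine step_hit g fun e' => ?_
    have h1 := le_X ha
    rw [← e', natAbs_side hs] at h1
    omega
  · rw [← e] at g
    exact (Hit.step _).trans g

theorem det_fam (hs : s = 1 ∨ s = -1) (h : Det s A B) :
    Fam s (() : Unit) () ((∑ a ∈ A, a.natAbs) + 1) (fun _ x => x.toNat ∈ B) := by
  intro t x hx
  have hss : s * s = 1 := by rcases hs with rfl | rfl <;> norm_num
  obtain ⟨n, rfl⟩ : ∃ n : ℕ, x = n := ⟨x.toNat, by omega⟩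
  have hn : (∑ a ∈ A, a.natAbs) < n := by
    have : (((∑ a ∈ A, a.natAbs) + 1 : ℕ) : ℤ) ≤ n := hx
    omega
  have h1 := T_sd hs (n : ℤ)
  have h2 : 0 < Pool.Agent.TH930.EBQ.T s (n : ℤ) := by
    unfold Pool.Agent.TH930.EBQ.T
    rcases hs with rfl | rfl <;> split_ifs <;> omega
  obtain ⟨m, hm⟩ : ∃ m : ℕ, Pool.Agent.TH930.EBQ.T s (n : ℤ) = m := ⟨(Pool.Agent.TH930.EBQ.T s (n : ℤ)).toNat, by omega⟩
  show ((n : ℤ)).toNat ∈ B ↔ (Pool.Agent.TH930.EBQ.T s (n : ℤ)).toNat ∈ B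
  rw [hm] at h1 h2 ⊢
  rw [Int.toNat_natCast, Int.toNat_natCast]
  exact det_step hs h hn (by omega) h1.symm

/-- **The dichotomy.** -/
theorem tail_dichotomy (hs : s = 1 ∨ s = -1) (h : Det s A B) :
    (∀ n ∈ B, ¬ 3 ∣ n → n ≤ ∑ a ∈ A, a.natAbs) ∨ (∀ n ∉ B, ¬ 3 ∣ n → n ≤ ∑ a ∈ A, a.natAbs) ∨
      Large (fun n => n ∈ B) := by
  obtain ⟨l, hl⟩ := det_dn hs h
  by_cases h1 : ∀ n ∈ B, ¬ 3 ∣ n → n ≤ ∑ a ∈ A, a.natAbs
  · exact Or.inl h1
  by_cases h2 : ∀ n ∉ B, ¬ 3 ∣ n → n ≤ ∑ a ∈ A, a.natAbs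
  · exact Or.inr (Or.inl h2)
  push Not at h1 h2
  obtain ⟨b, hb1, hb2, hb3⟩ := h1
  obtain ⟨c, hc1, hc2, hc3⟩ := h2
  have hl0 := pos_of hs h hb1 hb2 hb3 hl
  have hl1 : Dn (fun n => n ∈ Bᶜ) (1 - l) := by
    have h3 : Dn (fun _ => True) 1 := by
      refine (tendsto_const_nhds (x := (1 : ℝ))).congr' ?_
      filter_upwards [eventually_gt_atTop 0] with N hN
      classical
      rw [cnt_eq]
      have hN' : (N : ℝ) ≠ 0 := by exact_mod_cast hN.ne'
      simp [hN']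
    exact dn_congr (dn_sub h3 hl fun _ _ _ => trivial) fun n _ => by simp
  have hl1' := pos_of hs h.compl hc1 hc2 hc3 hl1
  right; right
  have hl2 : Dn (fun n => ((n : ℤ)).toNat ∈ B) l := dn_congr hl fun n _ => by rw [Int.toNat_natCast]
  have h4 : Large (fun n : ℕ => ((n : ℤ)).toNat ∈ B) := fun η hη =>
    influence_fam (A := Unit) hs (det_fam hs h) () (Q := 1) _root_.one_pos (fun _ _ _ => Iff.rfl) hl0 (by linarith) hl2 hη
  exact Inf2.Large.congr (fun n _ => by rw [Int.toNat_natCast]) h4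

/-- sparse sets -/
theorem det_sparse (hs : s = 1 ∨ s = -1) (h : Det s A B) {X : ℕ} (hX : (∑ a ∈ A, a.natAbs) ≤ X)
    (h1 : ∀ n ∈ B, 1 ≤ n → ¬ 3 ∣ n → n ≤ X) {n : ℕ} (hn : 1 ≤ n) (hB : n ∈ B) : ∃ j m : ℕ, m ≤ X ∧ n = 2 ^ j * m := by
  obtain ⟨j, m, h2, rfl⟩ := Nat.exists_eq_two_pow_mul_odd (n := n) (by omega)
  have h2' := Nat.odd_iff.1 h2
  refine ⟨j, m, ?_, rfl⟩
  by_contra hcon
  have e : s * ((2 ^ j * m : ℕ) : ℤ) = 2 ^ j * (s * m) := by push_cast; ring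
  have hm : Hit (s * ((2 ^ j * m : ℕ) : ℤ)) (s * m) := by rw [e]; exact ⟨j, iter_two j _⟩
  have hmB : m ∈ B := by
    refine (h _ m hn (by omega) hm.mg fun a ha => ⟨fun g => ?_, fun g => hm.trans g⟩).1 hB
    rw [e] at g
    rcases fall j g with ⟨i, _, e'⟩ | g'
    · exact absurd (e' ▸ ha) (pow_not_mem hs (by omega))
    · exact g'
  by_cases h3 : 3 ∣ m
  · obtain ⟨q, hq⟩ : ∃ q : ℕ, 2 * (q : ℤ) = 3 * m + s := by
      refine ⟨((3 * (m : ℤ) + s) / 2).toNat, ?_⟩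
      rcases hs with rfl | rfl <;> omega
    have hq1 : m ≤ q := by rcases hs with rfl | rfl <;> omega
    have h4 : q ∈ B := by
      refine (det_step hs h (n := m) (m := q) (by omega) (by omega) ?_).1 hmB
      unfold Td
      rcases hs with rfl | rfl
      · rw [if_neg (by omega)]; omega
      · rw [if_neg (by omega)]; omega
    have h5 := h1 q h4 (by omega) (by rcases hs with rfl | rfl <;> omega)
    omega
  · have := h1 m hmB (by omega) h3
    omega

end Tail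

end Pool.Agent.H620.Pre
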