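import Pool.Agent.H620.Pre.Base
import Pool.Agent.H620.Pre.Dnf

/-! The predecessor sets of the Collatz map. -/

set_option autoImplicit false

namespace Pool.Agent.H620.Pre

open Finset Filter Topology
open Pool.Agent.H499R2.ND (Dn cnt Phi Td cnt_le)
open Pool.Agent.H620.Inf2 (Large)

/-- The Collatz map on the integers. -/
def Cz (x : ℤ) : ℤ := if x % 2 = 0 then x / 2 else 3 * x + 1

/-- `y` is a term of the trajectory of `x` -/
def Hits (x y : ℤ) : Prop := ∃ k : ℕ, Cz^[k] x = y

theorem Hits.trans {x y z : ℤ} (h : Hits x y) (h' : Hits y z) : Hits x z := by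
  obtain ⟨k, rfl⟩ := h
  obtain ⟨l, rfl⟩ := h'
  exact ⟨l + k, Function.iterate_add_apply _ _ _ _⟩

theorem Hits.refl (x : ℤ) : Hits x x := ⟨0, rfl⟩

theorem Hits.step (x : ℤ) : Hits x (Cz x) := ⟨1, rfl⟩

/-- two terms of a trajectory -/
theorem Hits.comp {x y z : ℤ} (h : Hits x y) (h' : Hits x z) : Hits y z ∨ Hits z y := by
  obtain ⟨k, rfl⟩ := h
  obtain ⟨l, rfl⟩ := h'
  rcases le_total k l with g | g
  · obtain ⟨m, rfl⟩ := Nat.exists_eq_add_of_le g
    left
    refine ⟨m, ?_⟩
    rw [add_comm, Function.iterate_add_apply]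
  · obtain ⟨m, rfl⟩ := Nat.exists_eq_add_of_le g
    right
    refine ⟨m, ?_⟩
    rw [add_comm, Function.iterate_add_apply]

/-- closed sets -/
theorem Hits.mem {A : Set ℤ} (hA : ∀ x ∈ A, Cz x ∈ A) {x y : ℤ} (hx : x ∈ A) (h : Hits x y) : y ∈ A := by
  obtain ⟨k, rfl⟩ := h
  induction k with
  | zero => exact hx
  | succ k ih => rw [Function.iterate_succ_apply']; exact hA _ ih

/-- the last term outside of a closed set -/
theorem Hits.last {A : Set ℤ} {x y : ℤ} (hx : x ∉ A) (hy : y ∈ A) (h : Hits x y) :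
    ∃ z, Hits x z ∧ z ∉ A ∧ Cz z ∈ A := by
  classical
  obtain ⟨k, rfl⟩ := h
  have hex : ∃ k, Cz^[k] x ∈ A := ⟨k, hy⟩
  have h1 := Nat.find_spec hex
  have h2 := fun m hm => Nat.find_min hex (m := m) hm
  obtain ⟨m, hm⟩ : ∃ m, Nat.find hex = m + 1 := Nat.exists_eq_succ_of_ne_zero (by
    intro h0
    rw [h0] at h1
    exact hx h1)
  refine ⟨Cz^[m] x, ⟨m, rfl⟩, h2 m (by omega), ?_⟩
  rw [hm, Function.iterate_succ_apply'] at h1
  exact h1

theorem Td_even {x : ℤ} (h : x % 2 = 0) : Td 1 x = Cz x := by unfold Td Cz; rw [if_pos h, if_pos h]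

theorem Td_odd {x : ℤ} (h : x % 2 ≠ 0) : Td 1 x = Cz (Cz x) := by
  unfold Td Cz
  rw [if_neg h, if_neg h, if_pos (by omega)]

theorem hits_Td (x : ℤ) : Hits x (Td 1 x) := by
  by_cases h : x % 2 = 0
  · rw [Td_even h]; exact Hits.step x
  · rw [Td_odd h]; exact (Hits.step x).trans (Hits.step _)

theorem hits_iter (k : ℕ) (x : ℤ) : Hits x ((Td 1)^[k] x) := by
  induction k with
  | zero => exact Hits.refl x
  | succ k ih => rw [Function.iterate_succ_apply']; exact ih.trans (hits_Td _)

/-- the targets for the shortcut map -/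
def tg (a : ℤ) : Finset ℤ := if a % 6 = 4 then {a, (a - 1) / 3} else {a}

theorem self_mem_tg (a : ℤ) : a ∈ tg a := by unfold tg; split_ifs <;> simp

theorem tg_hits {a f : ℤ} (hf : f ∈ tg a) : f = a ∨ (a % 6 = 4 ∧ f = (a - 1) / 3 ∧ Cz f = a) := by
  unfold tg at hf
  split_ifs at hf with h
  · rw [mem_insert, mem_singleton] at hf
    rcases hf with hf | hf
    · exact Or.inl hf
    · refine Or.inr ⟨h, hf, ?_⟩
      unfold Cz
      rw [hf, if_neg (by omega)]
      omega
  · rw [mem_singleton] at hf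
    exact Or.inl hf

theorem mem_tg {a x : ℤ} (h : x % 2 ≠ 0) (hx : Cz x = a) : x ∈ tg a := by
  unfold Cz at hx
  rw [if_neg h] at hx
  unfold tg
  rw [if_pos (by omega), mem_insert, mem_singleton]
  right
  omega

theorem hits_iff (x a : ℤ) : Hits x a ↔ ∃ j : ℕ, (Td 1)^[j] x ∈ tg a := by
  constructor
  · rintro ⟨k, hk⟩
    induction k using Nat.strong_induction_on generalizing x with
    | _ k ih =>
      rcases k with _ | k
      · exact ⟨0, by rw [← hk]; exact self_mem_tg _⟩
      · rw [Function.iterate_succ_apply] at hk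
        by_cases hx : x % 2 = 0
        · obtain ⟨j, hj⟩ := ih k (by omega) (Cz x) hk
          exact ⟨j + 1, by rw [Function.iterate_succ_apply, Td_even hx]; exact hj⟩
        · rcases k with _ | k
          · exact ⟨0, mem_tg hx hk⟩
          · rw [Function.iterate_succ_apply] at hk
            obtain ⟨j, hj⟩ := ih k (by omega) _ hk
            exact ⟨j + 1, by rw [Function.iterate_succ_apply, Td_odd hx]; exact hj⟩
  · rintro ⟨j, hj⟩
    rcases tg_hits hj with h | ⟨_, _, h⟩
    · rw [← h]; exact hits_iter j x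
    · rw [← h]; exact (hits_iter j x).trans (Hits.step _)

/-- the predecessors of `a` -/
def PC (s a : ℤ) (n : ℕ) : Prop := Hits (s * n) a

/-- **Main lemma.** -/
theorem large_PC {s a b : ℤ} (hs : s = 1 ∨ s = -1) (ha : 0 < s * a) (ha3 : ¬ (3 : ℤ) ∣ a) (hb : 0 < s * b)
    (hb3 : ¬ (3 : ℤ) ∣ b) (h1 : ¬ Hits b a) (h2 : ¬ Hits a b) : Large (PC s a) := by
  have h := large_F hs (tg a) ⟨a, self_mem_tg a, ha, ha3⟩ hb hb3 (fun j hj => h1 ((hits_iff b a).2 ⟨j, hj⟩)) (by
    intro f hf j hj
    rcases tg_hits hf with g | ⟨g0, _, g⟩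
    · subst g
      exact h2 (by rw [← hj]; exact hits_iter j f)
    · rcases j with _ | j
      · apply h1
        rw [← hj, ← g]
        exact Hits.step f
      · rw [Function.iterate_succ_apply, Td_odd (x := f) (by
          intro h0
          unfold Cz at g
          rw [if_pos h0] at g
          omega)] at hj
        apply h2
        rw [g] at hj
        rw [← hj]
        exact (Hits.step a).trans (hits_iter j _))
  exact Inf2.Large.congr (fun n _ => hits_iff _ _) h

end Pool.Agent.H620.Pre
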